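import Pool.Agent.TH662.LT.H1
import Pool.Agent.Helper490.LTH1C

set_option autoImplicit false

open MeasureTheory Set Filter Topology Real
open scoped RealInnerProductSpace ENNReal

namespace Pool.Agent.TH662.LT

open Pool.Helper490.Calib (realify realify_norm sqn realifyL realifyL_apply)

/-- Bessel's inequality for the real coordinates of an orthonormal family. -/
lemma bessel_restrict {N : ℕ} (μ : Measure ℝ) (u : Fin N → ℝ → ℂ)
    (hm : ∀ n, AEStronglyMeasurable (u n) μ) (h2 : ∀ n, Integrable (fun x => ‖u n x‖ ^ 2) μ)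
    (ho : ∀ n m, ∫ x, star (u n x) * u m x ∂μ = if n = m then 1 else 0)
    (v : EuclideanSpace ℝ (Fin N ⊕ Fin N)) :
    Integrable (fun x => ⟪realify (fun n => u n x), v⟫ ^ 2) μ ∧
      ∫ x, ⟪realify (fun n => u n x), v⟫ ^ 2 ∂μ ≤ ‖v‖ ^ 2 := by
  have hij : ∀ n m, Integrable (fun x => star (u n x) * u m x) μ := by
    intro n m
    have hm : AEStronglyMeasurable (fun x => star (u n x) * u m x) μ :=
      ((hm n).star).mul (hm m)
    refine ((h2 n).add (h2 m)).mono' hm (Eventually.of_forall fun x => ?_)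
    rw [norm_mul, norm_star]
    simp only [Pi.add_apply]
    nlinarith [sq_nonneg (‖u n x‖ - ‖u m x‖), norm_nonneg (u n x), norm_nonneg (u m x)]
  set z : Fin N → ℂ := fun n => ⟨v (Sum.inl n), v (Sum.inr n)⟩ with hz
  set g : ℝ → ℂ := fun x => ∑ n, star (z n) * u n x with hg
  have hinner : ∀ x, ⟪realify (fun n => u n x), v⟫ = (g x).re :=
    fun x => Pool.Helper490.Calib.realify_inner _ v
  have hexp : ∀ x, star (g x) * g x =
      ∑ n, ∑ m, (z n * star (z m)) * (star (u n x) * u m x) := by
    intro x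
    simp only [hg, star_sum, star_mul', star_star]
    rw [Finset.sum_mul_sum]
    refine Finset.sum_congr rfl fun n _ => Finset.sum_congr rfl fun m _ => ?_
    ring
  have hgi : Integrable (fun x => star (g x) * g x) μ := by
    simp only [hexp]
    exact integrable_finsetSum _ fun n _ => integrable_finsetSum _ fun m _ =>
      (hij n m).const_mul _
  have hgint : ∫ x, star (g x) * g x ∂μ = ((∑ n, ‖z n‖ ^ 2 : ℝ) : ℂ) := by
    simp only [hexp]
    rw [integral_finsetSum _ fun n _ => integrable_finsetSum _ fun m _ =>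
      (hij n m).const_mul _]
    push_cast
    refine Finset.sum_congr rfl fun n _ => ?_
    rw [integral_finsetSum _ fun m _ => (hij n m).const_mul _]
    simp only [integral_const_mul, ho]
    simp only [mul_ite, mul_one, mul_zero, Finset.sum_ite_eq, Finset.mem_univ, if_true]
    rw [← Complex.ofReal_pow, ← Complex.normSq_eq_norm_sq]
    exact Complex.mul_conj _
  have hnorm : ∀ x, ((‖g x‖ ^ 2 : ℝ) : ℂ) = star (g x) * g x := by
    intro x
    rw [mul_comm]
    rw [← Complex.normSq_eq_norm_sq]
    exact (Complex.mul_conj _).symm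
  have hgi2 : Integrable (fun x => ‖g x‖ ^ 2) μ := by
    have := hgi.re
    refine this.congr (Eventually.of_forall fun x => ?_)
    simp only [← hnorm]
    exact Complex.ofReal_re _
  have hval : ∫ x, ‖g x‖ ^ 2 ∂μ = ∑ n, ‖z n‖ ^ 2 := by
    have h1 : ((∫ x, ‖g x‖ ^ 2 ∂μ : ℝ) : ℂ) = ((∑ n, ‖z n‖ ^ 2 : ℝ) : ℂ) := by
      rw [← hgint, ← integral_complex_ofReal]
      exact integral_congr_ae (Eventually.of_forall fun x => hnorm x)
    exact_mod_cast h1
  have hv : ‖v‖ ^ 2 = ∑ n, ‖z n‖ ^ 2 := by
    rw [EuclideanSpace.norm_sq_eq, Fintype.sum_sum_type, ← Finset.sum_add_distrib]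
    refine Finset.sum_congr rfl fun n _ => ?_
    rw [sqn]
    simp [hz]
  have hgm : AEStronglyMeasurable g μ :=
    Finset.aestronglyMeasurable_fun_sum _ fun n _ => (hm n).const_mul _
  have hpt : ∀ x, ⟪realify (fun n => u n x), v⟫ ^ 2 ≤ ‖g x‖ ^ 2 := by
    intro x
    rw [hinner, sqn]
    nlinarith [sq_nonneg (g x).im]
  have hI : Integrable (fun x => ⟪realify (fun n => u n x), v⟫ ^ 2) μ := by
    refine hgi2.mono' ?_ (Eventually.of_forall fun x => ?_)
    · simp only [hinner]
      exact (Complex.continuous_re.comp_aestronglyMeasurable hgm).pow 2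
    · rw [Real.norm_eq_abs, abs_of_nonneg (sq_nonneg _)]
      exact hpt x
  refine ⟨hI, ?_⟩
  rw [hv, ← hval]
  exact integral_mono hI hgi2 hpt

/-- The sharp inequality on an interval for complex families satisfying Bessel's inequality. -/
theorem family_of_bessel {N : ℕ} {a b : ℝ} (hab : a ≤ b) (u g : Fin N → ℝ → ℂ)
    (hg : ∀ n, MemLp (g n) 2 (volume.restrict (Icc a b)))
    (hug : ∀ n, ∀ x ∈ Icc a b, u n x = u n a + ∫ t in a..x, g n t)
    (hbes : ∀ v, ∫ x in a..b, ⟪realify (fun n => u n x), v⟫ ^ 2 ≤ ‖v‖ ^ 2)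
    {θ ω : ℝ} (hθ0 : 0 < θ) (hω1 : -(π / 2) < ω - θ / 2) (hω2 : ω + θ / 2 < π / 2) :
    θ ^ 2 / 4 * (∫ x in a..b, (∑ n, ‖u n x‖ ^ 2) ^ 3) ≤ (∑ n, ∫ x in a..b, ‖g n x‖ ^ 2) +
      (θ / 4 * tan (θ / 2 - ω) * (∑ n, ‖u n a‖ ^ 2) ^ 2 +
        θ / 4 * tan (θ / 2 + ω) * (∑ n, ‖u n b‖ ^ 2) ^ 2) := by
  have hgi : ∀ n, IntegrableOn (fun x => ‖g n x‖ ^ 2) (Icc a b) := fun n =>
    (hg n).integrable_norm_pow (by norm_num)
  have hgi' : ∀ n, IntervalIntegrable (fun x => ‖g n x‖ ^ 2) volume a b := fun n =>
    (intervalIntegrable_iff_integrableOn_Icc_of_le hab).2 (hgi n)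
  have hmem : MemLp (fun x => realify fun n => g n x) 2 (volume.restrict (Icc a b)) := by
    have hfm : AEStronglyMeasurable (fun x => fun n => g n x) (volume.restrict (Icc a b)) :=
      (aemeasurable_pi_lambda _ fun n => (hg n).1.aemeasurable).aestronglyMeasurable
    have hm : AEStronglyMeasurable (fun x => realify fun n => g n x)
        (volume.restrict (Icc a b)) :=
      (realifyL N).continuous.comp_aestronglyMeasurable hfm
    rw [memLp_two_iff_integrable_sq_norm hm]
    simp only [realify_norm]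
    exact integrable_finsetSum _ fun n _ => hgi n
  have hII : ∀ n, ∀ x ∈ Icc a b, IntervalIntegrable (g n) volume a x := by
    intro n x hx
    refine (intervalIntegrable_iff_integrableOn_Icc_of_le hx.1).2 ?_
    have h1 : IntegrableOn (g n) (Icc a b) := (hg n).integrable (by norm_num)
    exact h1.mono_set (Icc_subset_Icc le_rfl hx.2)
  have hftc : ∀ x ∈ Icc a b, realify (fun n => u n x) = realify (fun n => u n a) +
      ∫ t in a..x, realify fun n => g n t := by
    intro x hx
    have hpi : IntervalIntegrable (fun x => fun n => g n x) volume a x := by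
      rw [intervalIntegrable_iff]
      exact Integrable.of_eval fun n => intervalIntegrable_iff.1 (hII n x hx)
    have h1 := (realifyL N).intervalIntegral_comp_comm hpi
    simp only [realifyL_apply] at h1
    rw [h1, ← realifyL_apply, ← realifyL_apply, ← realifyL_apply, ← map_add]
    congr 1
    funext n
    rw [Pi.add_apply, hug n x hx]
    have h2 := (ContinuousLinearMap.proj (R := ℝ) (φ := fun _ : Fin N => ℂ) n).intervalIntegral_comp_comm hpi
    simpa using h2
  have h := sharpI_H1 hab (fun x => realify fun n => u n x) (fun x => realify fun n => g n x)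
    hmem hftc hbes hθ0 hω1 hω2
  simp only [realify_norm] at h
  rwa [intervalIntegral.integral_finsetSum fun n _ => hgi' n] at h

end Pool.Agent.TH662.LT
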