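import Pool.Agent.TH662.LT.Int
import Mathlib.MeasureTheory.Function.ContinuousMapDense

set_option autoImplicit false

open MeasureTheory Set Filter Topology Real
open scoped RealInnerProductSpace ENNReal

namespace Pool.Agent.TH662.LT

variable {E : Type*} [NormedAddCommGroup E] [InnerProductSpace ℝ E] [FiniteDimensional ℝ E]

lemma exists_cont_approx {a b : ℝ} {g : ℝ → E}
    (hg : MemLp g 2 (volume.restrict (Icc a b))) {δ : ℝ} (hδ : 0 < δ) :
    ∃ v : ℝ → E, Continuous v ∧ MemLp (fun x => g x - v x) 2 (volume.restrict (Icc a b)) ∧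
      ∫ x in Icc a b, ‖g x - v x‖ ^ 2 ≤ δ ^ 2 := by
  obtain ⟨v, hv, hvm⟩ := hg.exists_boundedContinuous_eLpNorm_sub_le (by norm_num)
    (ε := ENNReal.ofReal δ) (by simpa using hδ)
  have hm : MemLp (fun x => g x - v x) 2 (volume.restrict (Icc a b)) := hg.sub hvm
  refine ⟨v, v.continuous, hm, ?_⟩
  have h1 := hm.eLpNorm_eq_integral_rpow_norm two_ne_zero ENNReal.ofNat_ne_top
  have h2 : eLpNorm (fun x => g x - v x) 2 (volume.restrict (Icc a b)) ≤ ENNReal.ofReal δ := hv
  rw [h1, ENNReal.ofReal_le_ofReal_iff hδ.le] at h2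
  simp only [ENNReal.toReal_ofNat] at h2
  have h3 : (fun x => ‖g x - v x‖ ^ (2 : ℝ)) = fun x => ‖g x - v x‖ ^ 2 := by
    funext x
    exact_mod_cast Real.rpow_natCast ‖g x - v x‖ 2
  rw [h3] at h2
  have h0 : 0 ≤ ∫ x in Icc a b, ‖g x - v x‖ ^ 2 := integral_nonneg fun x => sq_nonneg _
  calc ∫ x in Icc a b, ‖g x - v x‖ ^ 2
      = ((∫ x in Icc a b, ‖g x - v x‖ ^ 2) ^ ((2 : ℝ)⁻¹)) ^ 2 := by
        rw [← Real.rpow_natCast, ← Real.rpow_mul h0]
        norm_num
    _ ≤ δ ^ 2 := pow_le_pow_left₀ (Real.rpow_nonneg h0 _) h2 2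

/-- The sharp inequality for functions with a square integrable derivative. -/
theorem sharpI_H1 {a b : ℝ} (hab : a ≤ b) (u g : ℝ → E)
    (hg2 : MemLp g 2 (volume.restrict (Icc a b)))
    (hug : ∀ x ∈ Icc a b, u x = u a + ∫ t in a..x, g t)
    (hbes : ∀ v : E, ∫ x in a..b, ⟪u x, v⟫ ^ 2 ≤ ‖v‖ ^ 2)
    {θ ω : ℝ} (hθ0 : 0 < θ) (hω1 : -(π / 2) < ω - θ / 2) (hω2 : ω + θ / 2 < π / 2) :
    θ ^ 2 / 4 * (∫ x in a..b, (‖u x‖ ^ 2) ^ 3) ≤ (∫ x in a..b, ‖g x‖ ^ 2) +
      (θ / 4 * tan (θ / 2 - ω) * (‖u a‖ ^ 2) ^ 2 +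
        θ / 4 * tan (θ / 2 + ω) * (‖u b‖ ^ 2) ^ 2) := by
  have hI : ∀ f : ℝ → ℝ, ∫ x in a..b, f x = ∫ x in Icc a b, f x := fun f => by
    rw [intervalIntegral.integral_of_le hab, integral_Icc_eq_integral_Ioc]
  have hII : ∀ f : ℝ → ℝ, IntegrableOn f (Icc a b) → IntervalIntegrable f volume a b :=
    fun f hf => (intervalIntegrable_iff_integrableOn_Icc_of_le hab).2 hf
  have hII' : ∀ f : ℝ → E, IntegrableOn f (Icc a b) → IntervalIntegrable f volume a b :=
    fun f hf => (intervalIntegrable_iff_integrableOn_Icc_of_le hab).2 hf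
  have hgi : IntegrableOn g (Icc a b) := hg2.integrable (by norm_num)
  have hg2i : IntervalIntegrable (fun x => ‖g x‖ ^ 2) volume a b :=
    hII _ (hg2.integrable_norm_pow (by norm_num))
  have huc : ContinuousOn u (Icc a b) := by
    have h1 : ContinuousOn (fun x => u a + ∫ t in a..x, g t) (Icc a b) := by
      refine continuousOn_const.add ?_
      have := intervalIntegral.continuousOn_primitive_interval (μ := volume) (a := a) (b := b)
        (f := g) (by rw [uIcc_of_le hab]; exact hgi)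
      rwa [uIcc_of_le hab] at this
    exact h1.congr hug
  obtain ⟨C, hC⟩ := isCompact_Icc.exists_bound_of_continuousOn huc
  have hC0 : 0 ≤ C := le_trans (norm_nonneg _) (hC a ⟨le_rfl, hab⟩)
  set L : ℝ := b - a with hL
  have hL0 : 0 ≤ L := by rw [hL]; linarith
  set κ : ℝ := (L + 1) / 2 with hκ
  have hκ0 : 0 ≤ κ := by positivity
  set J : ℝ := ∫ x in a..b, ‖g x‖ ^ 2 with hJ
  -- the approximation
  have main : ∀ δ : ℝ, 0 < δ → ∃ U : ℝ → E, ContinuousOn U (Icc a b) ∧ U a = u a ∧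
      (∀ x ∈ Icc a b, ‖U x - u x‖ ≤ κ * δ) ∧
      θ ^ 2 / 4 * (((1 + δ) + (δ ^ 2 + δ) * κ ^ 2 * L)⁻¹ ^ 3 * ∫ x in a..b, (‖U x‖ ^ 2) ^ 3) ≤
        ((1 + δ) + (δ ^ 2 + δ) * κ ^ 2 * L)⁻¹ * ((1 + δ) * J + (δ ^ 2 + δ)) +
        ((1 + δ) + (δ ^ 2 + δ) * κ ^ 2 * L)⁻¹ ^ 2 *
          (θ / 4 * tan (θ / 2 - ω) * (‖U a‖ ^ 2) ^ 2 +
          θ / 4 * tan (θ / 2 + ω) * (‖U b‖ ^ 2) ^ 2) := by
    intro δ hδ
    obtain ⟨v, hvc, hvm, hv⟩ := exists_cont_approx hg2 hδ
    set s : ℝ := (1 + δ) + (δ ^ 2 + δ) * κ ^ 2 * L with hs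
    have hs0 : 0 < s := by positivity
    set U : ℝ → E := fun x => u a + ∫ t in a..x, v t with hU
    have hUd : ∀ x, HasDerivAt U (v x) x := fun x =>
      (hvc.integral_hasStrictDerivAt a x).hasDerivAt.const_add _
    have hUc : Continuous U := continuous_iff_continuousAt.2 fun x => (hUd x).continuousAt
    have hdi : IntervalIntegrable (fun x => ‖g x - v x‖ ^ 2) volume a b :=
      hII _ (hvm.integrable_norm_pow (by norm_num))
    have hv' : ∫ x in a..b, ‖g x - v x‖ ^ 2 ≤ δ ^ 2 := by rw [hI]; exact hv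
    have hclose : ∀ x ∈ Icc a b, ‖U x - u x‖ ≤ κ * δ := by
      intro x hx
      have hgx : IntervalIntegrable g volume a x :=
        (hII' _ hgi).mono_set (by
          rw [uIcc_of_le hab, uIcc_of_le hx.1]; exact Icc_subset_Icc le_rfl hx.2)
      have hvx : IntervalIntegrable v volume a x := hvc.intervalIntegrable _ _
      have e1 : U x - u x = ∫ t in a..x, (v t - g t) := by
        rw [hug x hx, intervalIntegral.integral_sub hvx hgx]
        exact add_sub_add_left_eq_sub _ _ _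
      have hni : IntervalIntegrable (fun t => ‖g t - v t‖) volume a b :=
        ((hII' _ hgi).sub (hvc.intervalIntegrable _ _)).norm
      have hc1 : IntervalIntegrable (fun t => (δ + ‖g t - v t‖ ^ 2 / δ) / 2) volume a b :=
        ((intervalIntegrable_const (c := δ)).add (hdi.div_const δ)).div_const 2
      calc ‖U x - u x‖ ≤ ∫ t in a..x, ‖v t - g t‖ := by
            rw [e1]; exact intervalIntegral.norm_integral_le_integral_norm hx.1
        _ = ∫ t in a..x, ‖g t - v t‖ := by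
            refine intervalIntegral.integral_congr fun t _ => ?_
            exact norm_sub_rev _ _
        _ ≤ ∫ t in a..b, ‖g t - v t‖ := by
            refine intervalIntegral.integral_mono_interval le_rfl hx.1 hx.2
              (Eventually.of_forall fun t => norm_nonneg _) hni
        _ ≤ ∫ t in a..b, (δ + ‖g t - v t‖ ^ 2 / δ) / 2 := by
            refine intervalIntegral.integral_mono_on hab hni hc1 fun t _ => ?_
            rw [le_div_iff₀ two_pos]
            have h1 : δ + ‖g t - v t‖ ^ 2 / δ - ‖g t - v t‖ * 2 =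
                (‖g t - v t‖ - δ) ^ 2 / δ := by field_simp; ring
            have h2 : 0 ≤ (‖g t - v t‖ - δ) ^ 2 / δ := by positivity
            linarith
        _ = (L * δ + (∫ t in a..b, ‖g t - v t‖ ^ 2) / δ) / 2 := by
            rw [intervalIntegral.integral_div, intervalIntegral.integral_add
              intervalIntegrable_const (hdi.div_const δ), intervalIntegral.integral_div,
              intervalIntegral.integral_const, smul_eq_mul]
        _ ≤ (L * δ + δ ^ 2 / δ) / 2 := by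
            gcongr
        _ = κ * δ := by rw [hκ]; field_simp
    refine ⟨U, hUc.continuousOn, by simp [hU], hclose, ?_⟩
    -- Bessel
    have hbU : ∀ w : E, ∫ x in a..b, ⟪U x, w⟫ ^ 2 ≤ s * ‖w‖ ^ 2 := by
      intro w
      have hc0 : ContinuousOn (fun x => ⟪u x, w⟫ ^ 2) (Icc a b) :=
        (huc.inner continuousOn_const).pow 2
      have hi0 : IntervalIntegrable (fun x => ⟪u x, w⟫ ^ 2) volume a b :=
        hc0.intervalIntegrable_of_Icc hab
      have hi1 : IntervalIntegrable (fun x => (1 + δ) * ⟪u x, w⟫ ^ 2 +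
          (1 + 1 / δ) * ((κ * δ) ^ 2 * ‖w‖ ^ 2)) volume a b :=
        (hi0.const_mul _).add intervalIntegrable_const
      calc ∫ x in a..b, ⟪U x, w⟫ ^ 2 ≤ ∫ x in a..b, ((1 + δ) * ⟪u x, w⟫ ^ 2 +
            (1 + 1 / δ) * ((κ * δ) ^ 2 * ‖w‖ ^ 2)) := by
            refine intervalIntegral.integral_mono_on hab
              (((hUc.inner continuous_const).pow 2).intervalIntegrable _ _) hi1 fun x hx => ?_
            have e1 : ⟪U x, w⟫ = ⟪u x, w⟫ + ⟪U x - u x, w⟫ := by
              rw [← inner_add_left]; congr 1; abel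
            have h1 : ⟪U x - u x, w⟫ ^ 2 ≤ (κ * δ) ^ 2 * ‖w‖ ^ 2 := by
              rw [← mul_pow, ← sq_abs]
              refine pow_le_pow_left₀ (abs_nonneg _) ?_ 2
              exact (abs_real_inner_le_norm _ _).trans
                (mul_le_mul_of_nonneg_right (hclose x hx) (norm_nonneg _))
            rw [e1]
            set p := ⟪u x, w⟫
            set q := ⟪U x - u x, w⟫
            have h2 : (1 + δ) * p ^ 2 + (1 + 1 / δ) * q ^ 2 - (p + q) ^ 2 =
                (δ * p - q) ^ 2 / δ := by field_simp; ring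
            have h3 : 0 ≤ (δ * p - q) ^ 2 / δ := by positivity
            have h4 : (1 + 1 / δ) * q ^ 2 ≤ (1 + 1 / δ) * ((κ * δ) ^ 2 * ‖w‖ ^ 2) :=
              mul_le_mul_of_nonneg_left h1 (by positivity)
            linarith
        _ = (1 + δ) * (∫ x in a..b, ⟪u x, w⟫ ^ 2) +
            L * ((1 + 1 / δ) * ((κ * δ) ^ 2 * ‖w‖ ^ 2)) := by
            rw [intervalIntegral.integral_add (hi0.const_mul _) intervalIntegrable_const,
              intervalIntegral.integral_const_mul, intervalIntegral.integral_const, smul_eq_mul]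
        _ ≤ (1 + δ) * ‖w‖ ^ 2 + L * ((1 + 1 / δ) * ((κ * δ) ^ 2 * ‖w‖ ^ 2)) := by
            have := mul_le_mul_of_nonneg_left (hbes w) (by positivity : 0 ≤ 1 + δ)
            linarith
        _ = s * ‖w‖ ^ 2 := by rw [hs]; field_simp
    -- the rescaled system
    set r : ℝ := √s with hr
    have hr0 : 0 < r := Real.sqrt_pos.2 hs0
    have hr2 : r ^ 2 = s := Real.sq_sqrt hs0.le
    have hsys : SysI a b (fun x => r⁻¹ • U x) (fun x => r⁻¹ • v x) := by
      refine ⟨hab, fun x => (hUd x).const_smul _, hvc.const_smul _, fun w => ?_⟩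
      have e1 : ∀ x, ⟪r⁻¹ • U x, w⟫ ^ 2 = s⁻¹ * ⟪U x, w⟫ ^ 2 := fun x => by
        rw [real_inner_smul_left, mul_pow, inv_pow, hr2]
      simp only [e1]
      rw [intervalIntegral.integral_const_mul]
      calc s⁻¹ * ∫ x in a..b, ⟪U x, w⟫ ^ 2 ≤ s⁻¹ * (s * ‖w‖ ^ 2) :=
            mul_le_mul_of_nonneg_left (hbU w) (by positivity)
        _ = ‖w‖ ^ 2 := by field_simp
    have h1 := hsys.sharpI hθ0 hω1 hω2
    have eN : ∀ y : E, ‖r⁻¹ • y‖ ^ 2 = s⁻¹ * ‖y‖ ^ 2 := fun y => by
      rw [norm_smul, mul_pow, norm_inv, inv_pow, Real.norm_eq_abs, sq_abs, hr2]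
    simp only [eN, mul_pow] at h1
    rw [intervalIntegral.integral_const_mul, intervalIntegral.integral_const_mul] at h1
    have hJv : ∫ x in a..b, ‖v x‖ ^ 2 ≤ (1 + δ) * J + (δ ^ 2 + δ) := by
      have hi1 : IntervalIntegrable (fun x => (1 + δ) * ‖g x‖ ^ 2 +
          (1 + 1 / δ) * ‖g x - v x‖ ^ 2) volume a b :=
        (hg2i.const_mul _).add (hdi.const_mul _)
      calc ∫ x in a..b, ‖v x‖ ^ 2 ≤ ∫ x in a..b, ((1 + δ) * ‖g x‖ ^ 2 +
          (1 + 1 / δ) * ‖g x - v x‖ ^ 2) := by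
            refine intervalIntegral.integral_mono_on hab
              ((hvc.norm.pow 2).intervalIntegrable _ _) hi1 fun x _ => ?_
            have e1 : ‖v x‖ ≤ ‖g x‖ + ‖g x - v x‖ := by
              calc ‖v x‖ = ‖g x - (g x - v x)‖ := by congr 1; abel
                _ ≤ _ := norm_sub_le _ _
            set p := ‖g x‖
            set q := ‖g x - v x‖
            have h2 : (1 + δ) * p ^ 2 + (1 + 1 / δ) * q ^ 2 - (p + q) ^ 2 =
                (δ * p - q) ^ 2 / δ := by field_simp; ring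
            have h3 : 0 ≤ (δ * p - q) ^ 2 / δ := by positivity
            have h4 : ‖v x‖ ^ 2 ≤ (p + q) ^ 2 := pow_le_pow_left₀ (norm_nonneg _) e1 2
            linarith
        _ = (1 + δ) * J + (1 + 1 / δ) * ∫ x in a..b, ‖g x - v x‖ ^ 2 := by
            rw [intervalIntegral.integral_add (hg2i.const_mul _) (hdi.const_mul _),
              intervalIntegral.integral_const_mul, intervalIntegral.integral_const_mul]
        _ ≤ (1 + δ) * J + (1 + 1 / δ) * δ ^ 2 := by
            have := mul_le_mul_of_nonneg_left hv' (by positivity : 0 ≤ 1 + 1 / δ)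
            linarith
        _ = (1 + δ) * J + (δ ^ 2 + δ) := by field_simp
    have h2 : s⁻¹ * ∫ x in a..b, ‖v x‖ ^ 2 ≤ s⁻¹ * ((1 + δ) * J + (δ ^ 2 + δ)) :=
      mul_le_mul_of_nonneg_left hJv (by positivity)
    calc θ ^ 2 / 4 * (s⁻¹ ^ 3 * ∫ x in a..b, (‖U x‖ ^ 2) ^ 3)
        ≤ _ := h1
      _ ≤ _ := by linarith
  -- the limit
  set dk : ℕ → ℝ := fun k => 1 / ((k : ℝ) + 1) with hdk
  have hdk0 : ∀ k, 0 < dk k := fun k => by simp only [hdk]; positivity
  have hdk1 : ∀ k, dk k ≤ 1 := fun k => by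
    simp only [hdk]
    rw [div_le_one (by positivity)]
    have : (0 : ℝ) ≤ k := Nat.cast_nonneg k
    linarith
  have hlim : Tendsto dk atTop (𝓝 0) := tendsto_one_div_add_atTop_nhds_zero_nat
  choose! U hUc hUa hUcl hUm using main
  have hpt : ∀ x ∈ Icc a b, Tendsto (fun k => U (dk k) x) atTop (𝓝 (u x)) := by
    intro x hx
    rw [tendsto_iff_norm_sub_tendsto_zero]
    refine squeeze_zero (fun k => norm_nonneg _) (fun k => hUcl _ (hdk0 k) x hx) ?_
    simpa using hlim.const_mul κ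
  have hIlim : Tendsto (fun k => ∫ x in a..b, (‖U (dk k) x‖ ^ 2) ^ 3) atTop
      (𝓝 (∫ x in a..b, (‖u x‖ ^ 2) ^ 3)) := by
    refine intervalIntegral.tendsto_integral_filter_of_dominated_convergence
      (fun _ => ((C + κ) ^ 2) ^ 3) ?_ ?_ intervalIntegrable_const ?_
    · refine Eventually.of_forall fun k => ?_
      rw [uIoc_of_le hab]
      exact ((((hUc _ (hdk0 k)).norm.pow 2).pow 3).mono Ioc_subset_Icc_self).aestronglyMeasurable
        measurableSet_Ioc
    · refine Eventually.of_forall fun k => Eventually.of_forall fun x hx => ?_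
      rw [uIoc_of_le hab] at hx
      have hx' : x ∈ Icc a b := Ioc_subset_Icc_self hx
      have h1 : ‖U (dk k) x‖ ≤ C + κ := by
        have h2 : ‖U (dk k) x‖ ≤ ‖u x‖ + ‖U (dk k) x - u x‖ := by
          calc ‖U (dk k) x‖ = ‖u x + (U (dk k) x - u x)‖ := by congr 1; abel
            _ ≤ _ := norm_add_le _ _
        have h3 := hUcl _ (hdk0 k) x hx'
        have h4 : κ * dk k ≤ κ := mul_le_of_le_one_right hκ0 (hdk1 k)
        linarith [hC x hx']
      rw [Real.norm_eq_abs, abs_of_nonneg (by positivity)]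
      exact pow_le_pow_left₀ (by positivity) (pow_le_pow_left₀ (norm_nonneg _) h1 2) 3
    · refine Eventually.of_forall fun x hx => ?_
      rw [uIoc_of_le hab] at hx
      exact ((hpt x (Ioc_subset_Icc_self hx)).norm.pow 2).pow 3
  have hs : Tendsto (fun k => ((1 + dk k) + ((dk k) ^ 2 + dk k) * κ ^ 2 * L)⁻¹) atTop (𝓝 1) := by
    have h1 : Tendsto (fun k => ((1 + dk k) + ((dk k) ^ 2 + dk k) * κ ^ 2 * L)) atTop
        (𝓝 ((1 + 0) + (0 ^ 2 + 0) * κ ^ 2 * L)) :=
      (hlim.const_add 1).add ((((hlim.pow 2).add hlim).mul_const _).mul_const _)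
    have h2 := h1.inv₀ (by norm_num)
    simpa using h2
  have hJlim : Tendsto (fun k => (1 + dk k) * J + ((dk k) ^ 2 + dk k)) atTop (𝓝 J) := by
    have h1 : Tendsto (fun k => (1 + dk k) * J + ((dk k) ^ 2 + dk k)) atTop
        (𝓝 ((1 + 0) * J + (0 ^ 2 + 0))) :=
      ((hlim.const_add 1).mul_const _).add ((hlim.pow 2).add hlim)
    simpa using h1
  have hb : Tendsto (fun k => (‖U (dk k) b‖ ^ 2) ^ 2) atTop (𝓝 ((‖u b‖ ^ 2) ^ 2)) :=
    ((hpt b ⟨hab, le_rfl⟩).norm.pow 2).pow 2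
  have ha : Tendsto (fun k => (‖U (dk k) a‖ ^ 2) ^ 2) atTop (𝓝 ((‖u a‖ ^ 2) ^ 2)) :=
    ((hpt a ⟨le_rfl, hab⟩).norm.pow 2).pow 2
  have hfin := le_of_tendsto_of_tendsto
    (((hs.pow 3).mul hIlim).const_mul (θ ^ 2 / 4))
    ((hs.mul hJlim).add ((hs.pow 2).mul ((ha.const_mul (θ / 4 * tan (θ / 2 - ω))).add
      (hb.const_mul (θ / 4 * tan (θ / 2 + ω))))))
    (Eventually.of_forall fun k => hUm _ (hdk0 k))
  simpa using hfin

end Pool.Agent.TH662.LT
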