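import Pool.Agent.Helper490.LTSech

set_option autoImplicit false

open MeasureTheory Set Filter Topology Real

namespace Pool.Agent.TH662.LT

open Pool.Helper490.Sech

/-- The parameter form of the boundary conditions. -/
lemma exists_omega {θ α β : ℝ} (hθ : θ ∈ Ioo 0 π) (hα : 0 < α + θ / 4 * (cos θ / sin θ))
    (hαβ : (θ / (4 * sin θ)) ^ 2 ≤
      (α + θ / 4 * (cos θ / sin θ)) * (β + θ / 4 * (cos θ / sin θ))) :
    ∃ ω, -(π / 2) < ω - θ / 2 ∧ ω + θ / 2 < π / 2 ∧ α = θ / 4 * tan (θ / 2 - ω) ∧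
      θ / 4 * tan (θ / 2 + ω) ≤ β := by
  have hs : 0 < sin θ := sin_pos_of_mem_Ioo hθ
  have hθ0 : 0 < θ := hθ.1
  set t : ℝ := 4 * α / θ with ht
  have hαt : α = θ / 4 * t := by rw [ht]; field_simp
  set φ := arctan t with hφ
  have hcφ : 0 < cos φ := cos_arctan_pos t
  have hsφ : sin φ = t * cos φ := by
    rw [hφ, sin_arctan, cos_arctan]; ring
  have hα' : α + θ / 4 * (cos θ / sin θ) = θ / (4 * sin θ) * (cos θ + t * sin θ) := by
    rw [hαt]; field_simp; ring
  have hθs : 0 < θ / (4 * sin θ) := by positivity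
  have hD : 0 < cos θ + t * sin θ := by
    rw [hα'] at hα
    exact (pos_iff_pos_of_mul_pos hα).1 hθs
  have hcos : 0 < cos (θ - φ) := by
    have e : cos (θ - φ) = cos φ * (cos θ + t * sin θ) := by
      rw [cos_sub, hsφ]; ring
    rw [e]; positivity
  refine ⟨θ / 2 - φ, ?_, ?_, ?_, ?_⟩
  · have := arctan_lt_pi_div_two t
    linarith
  · by_contra hcon
    push Not at hcon
    have h1 := neg_pi_div_two_lt_arctan t
    have h2 : cos (θ - φ) ≤ 0 := cos_nonpos_of_pi_div_two_le_of_le (by linarith)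
      (by linarith [hθ.2])
    linarith
  · rw [show θ / 2 - (θ / 2 - φ) = φ by ring, hφ, tan_arctan]
    exact hαt
  · have e1 : tan (θ / 2 + (θ / 2 - φ)) = (sin θ - t * cos θ) / (cos θ + t * sin θ) := by
      rw [show θ / 2 + (θ / 2 - φ) = θ - φ by ring, tan_eq_sin_div_cos, sin_sub, cos_sub, hsφ,
        show sin θ * cos φ - cos θ * (t * cos φ) = (sin θ - t * cos θ) * cos φ by ring,
        show cos θ * cos φ + sin θ * (t * cos φ) = (cos θ + t * sin θ) * cos φ by ring,
        mul_div_mul_right _ _ hcφ.ne']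
    rw [e1]
    rw [hα', pow_two, mul_assoc] at hαβ
    have h1 := le_of_mul_le_mul_left hαβ hθs
    have h2 : θ / (4 * sin θ) / (cos θ + t * sin θ) ≤ β + θ / 4 * (cos θ / sin θ) := by
      rw [div_le_iff₀ hD]; linarith
    have h3 : θ / 4 * ((sin θ - t * cos θ) / (cos θ + t * sin θ)) =
        θ / (4 * sin θ) / (cos θ + t * sin θ) - θ / 4 * (cos θ / sin θ) := by
      have h4 : sin θ ^ 2 = 1 - cos θ ^ 2 := by have := sin_sq_add_cos_sq θ; linarith
      rw [eq_sub_iff_add_eq]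
      rw [div_div, mul_div_assoc', mul_div_assoc', div_add_div _ _ hD.ne' hs.ne',
        div_eq_div_iff (by positivity) (by positivity)]
      have : (θ / 4 * (sin θ - t * cos θ) * sin θ + (cos θ + t * sin θ) * (θ / 4 * cos θ)) *
          (4 * sin θ * (cos θ + t * sin θ)) =
          θ * ((sin θ ^ 2 + cos θ ^ 2) * (sin θ * (cos θ + t * sin θ))) := by ring
      rw [this, h4]
      ring
    linarith

/-- A quadratic inequality on the positive half-line. -/
lemma quad_cond {a b D : ℝ} (hD : 0 < D) (h : ∀ z : ℝ, 0 < z → 0 ≤ a * z ^ 2 - 2 * D * z + b) :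
    0 < a ∧ D ^ 2 ≤ a * b := by
  have ha : 0 < a := by
    by_contra hcon
    push Not at hcon
    have hz : 0 < (|b| + 1) / D := by positivity
    have h1 := h _ hz
    have h2 : a * ((|b| + 1) / D) ^ 2 ≤ 0 := mul_nonpos_of_nonpos_of_nonneg hcon (sq_nonneg _)
    have h3 : 2 * D * ((|b| + 1) / D) = 2 * (|b| + 1) := by field_simp
    rw [h3] at h1
    linarith [le_abs_self b, abs_nonneg b]
  refine ⟨ha, ?_⟩
  have h1 := h (D / a) (by positivity)
  have h2 : a * (D / a) ^ 2 - 2 * D * (D / a) + b = (a * b - D ^ 2) / a := by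
    field_simp; ring
  rw [h2] at h1
  have h3 : 0 ≤ (a * b - D ^ 2) / a * a := mul_nonneg h1 ha.le
  rw [div_mul_cancel₀ _ ha.ne'] at h3
  linarith

section gd

variable {A : ℝ} (h1 : -(π / 2) < A) (h2 : A < π / 2)
include h1 h2

lemma sech_arsinh_tan : (cosh (arsinh (tan A)))⁻¹ = cos A := by
  have hc : 0 < cos A := cos_pos_of_mem_Ioo ⟨h1, h2⟩
  have hh : 0 < cosh (arsinh (tan A)) := cosh_pos _
  have e : (cosh (arsinh (tan A)) * cos A) ^ 2 = 1 := by
    rw [mul_pow, cosh_sq, sinh_arsinh, tan_eq_sin_div_cos, div_pow]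
    have := sin_sq_add_cos_sq A
    field_simp
    linarith
  have e2 : cosh (arsinh (tan A)) * cos A = 1 := by
    have h3 : 0 < cosh (arsinh (tan A)) * cos A := by positivity
    nlinarith
  rw [inv_eq_of_mul_eq_one_right e2]

lemma arctan_sinh_arsinh_tan : arctan (sinh (arsinh (tan A))) = A := by
  rw [sinh_arsinh, arctan_tan h1 h2]

lemma sinh_sech_sq : sinh (arsinh (tan A)) * (cosh (arsinh (tan A)))⁻¹ ^ 2 = sin A * cos A := by
  have hc : 0 < cos A := cos_pos_of_mem_Ioo ⟨h1, h2⟩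
  rw [sech_arsinh_tan h1 h2, sinh_arsinh, tan_eq_sin_div_cos]
  field_simp

end gd

lemma sech_cont : Continuous fun x : ℝ => (cosh x)⁻¹ :=
  continuous_cosh.inv₀ fun x => (cosh_pos x).ne'

section interval

variable {A B : ℝ} (hB : -(π / 2) < B) (hAB : B < A) (hA : A < π / 2)
include hB hAB hA

lemma int_w2 : ∫ x in (arsinh (tan B))..(arsinh (tan A)), w x ^ 2 = A - B := by
  simp only [w_sq]
  rw [intervalIntegral.integral_eq_sub_of_hasDerivAt (fun x _ => arctan_sinh_deriv x)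
    (sech_cont.intervalIntegrable _ _), arctan_sinh_arsinh_tan (by linarith) hA,
    arctan_sinh_arsinh_tan hB (by linarith)]

lemma int_w6 : ∫ x in (arsinh (tan B))..(arsinh (tan A)), (w x ^ 2) ^ 3 =
    (A - B + (sin A * cos A - sin B * cos B)) / 2 := by
  simp only [w_sq]
  rw [intervalIntegral.integral_eq_sub_of_hasDerivAt (fun x _ => sech3_deriv x)
    ((sech_cont.pow 3).intervalIntegrable _ _), arctan_sinh_arsinh_tan (by linarith) hA,
    arctan_sinh_arsinh_tan hB (by linarith), sinh_sech_sq (by linarith) hA,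
    sinh_sech_sq hB (by linarith)]
  ring

lemma int_w'2 : ∫ x in (arsinh (tan B))..(arsinh (tan A)), w' x ^ 2 =
    (A - B - (sin A * cos A - sin B * cos B)) / 8 := by
  have e1 := int_w2 hB hAB hA
  have e2 := int_w6 hB hAB hA
  simp only [w_sq] at e1 e2
  simp only [w'_sq]
  have hi3 : IntervalIntegrable (fun x => (cosh x)⁻¹ ^ 3) volume (arsinh (tan B))
      (arsinh (tan A)) := (sech_cont.pow 3).intervalIntegrable _ _
  rw [intervalIntegral.integral_const_mul, intervalIntegral.integral_sub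
    (sech_cont.intervalIntegrable _ _) hi3, e1, e2]
  ring

end interval

lemma norm_cw (r x : ℝ) : ‖((r * x : ℝ) : ℂ)‖ ^ 2 = r ^ 2 * x ^ 2 := by
  rw [Complex.norm_real, Real.norm_eq_abs, sq_abs, mul_pow]

/-- The inequality evaluated at the test functions on intervals. -/
lemma test_interval {c α β : ℝ}
    (h : ∀ a b : ℝ, a < b → ∀ u g : ℝ → ℂ, MemLp g 2 (volume.restrict (Icc a b)) →
      (∀ x ∈ Icc a b, u x = u a + ∫ t in a..x, g t) → ∫ x in a..b, ‖u x‖ ^ 2 = 1 →
      c * (∫ x in a..b, (‖u x‖ ^ 2) ^ 3) ≤ (∫ x in a..b, ‖g x‖ ^ 2) +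
        (α * (‖u a‖ ^ 2) ^ 2 + β * (‖u b‖ ^ 2) ^ 2))
    {A B : ℝ} (hB : -(π / 2) < B) (hAB : B < A) (hA : A < π / 2) :
    4 * c * (A - B + (sin A * cos A - sin B * cos B)) ≤
      (A - B) ^ 2 * (A - B - (sin A * cos A - sin B * cos B)) +
      8 * (A - B) * (α * cos B ^ 2 + β * cos A ^ 2) := by
  set M : ℝ := A - B with hM
  have hM0 : 0 < M := by rw [hM]; linarith
  set r : ℝ := (√M)⁻¹ with hr
  have hr2 : r ^ 2 = M⁻¹ := by rw [hr, inv_pow, Real.sq_sqrt hM0.le]
  set x1 := arsinh (tan B) with hx1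
  set x2 := arsinh (tan A) with hx2
  have hx : x1 < x2 := by
    rw [hx1, hx2, arsinh_lt_arsinh]
    exact tan_lt_tan_of_lt_of_lt_pi_div_two hB hA hAB
  have hgc : Continuous fun x => ((r * w' x : ℝ) : ℂ) :=
    Complex.continuous_ofReal.comp (continuous_const.mul w'_cont)
  have h1 := h x1 x2 hx (fun x => ((r * w x : ℝ) : ℂ)) (fun x => ((r * w' x : ℝ) : ℂ)) ?_ ?_ ?_
  · simp only [norm_cw, hr2, mul_pow M⁻¹] at h1
    rw [intervalIntegral.integral_const_mul, intervalIntegral.integral_const_mul,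
      int_w6 hB hAB hA, int_w'2 hB hAB hA, w_sq, w_sq, hx1, hx2, sech_arsinh_tan hB (by linarith),
      sech_arsinh_tan (by linarith) hA] at h1
    rw [← hM] at h1
    set S := sin A * cos A - sin B * cos B
    have h2 := mul_le_mul_of_nonneg_left h1 (by positivity : (0:ℝ) ≤ 8 * M ^ 3)
    have e1 : 8 * M ^ 3 * (c * (M⁻¹ ^ 3 * ((M + S) / 2))) = 4 * c * (M + S) := by
      field_simp; ring
    have e2 : 8 * M ^ 3 * (M⁻¹ * ((M - S) / 8) + (α * (M⁻¹ ^ 2 * cos B ^ 2) +
        β * (M⁻¹ ^ 2 * cos A ^ 2))) = M ^ 2 * (M - S) + 8 * M * (α * cos B ^ 2 + β * cos A ^ 2) := by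
      field_simp
    rw [e1, e2] at h2
    exact h2
  · have h3 : IntegrableOn (fun x => ‖((r * w' x : ℝ) : ℂ)‖ ^ 2) (Icc x1 x2) :=
      (hgc.norm.pow 2).continuousOn.integrableOn_compact isCompact_Icc
    exact (memLp_two_iff_integrable_sq_norm hgc.aestronglyMeasurable).2 h3
  · intro x _
    rw [intervalIntegral.integral_eq_sub_of_hasDerivAt (f := fun x => ((r * w x : ℝ) : ℂ))]
    · ring
    · intro y _
      exact ((w_deriv y).const_mul r).ofReal_comp
    · exact hgc.intervalIntegrable _ _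
  · simp only [norm_cw, hr2]
    rw [intervalIntegral.integral_const_mul, int_w2 hB hAB hA, ← hM]
    field_simp

/-- Necessity of the conditions on intervals. -/
lemma cond_of_test {θ α β : ℝ} (hθ : θ ∈ Ioo 0 π)
    (h : ∀ A B : ℝ, -(π / 2) < B → B < A → A < π / 2 →
      4 * (θ ^ 2 / 4) * (A - B + (sin A * cos A - sin B * cos B)) ≤
      (A - B) ^ 2 * (A - B - (sin A * cos A - sin B * cos B)) +
      8 * (A - B) * (α * cos B ^ 2 + β * cos A ^ 2)) :
    0 < α + θ / 4 * (cos θ / sin θ) ∧ (θ / (4 * sin θ)) ^ 2 ≤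
      (α + θ / 4 * (cos θ / sin θ)) * (β + θ / 4 * (cos θ / sin θ)) := by
  have hs : 0 < sin θ := sin_pos_of_mem_Ioo hθ
  have hθ0 : 0 < θ := hθ.1
  refine quad_cond (by positivity) fun z hz => ?_
  set A := arctan ((z - cos θ) / sin θ) with hA
  have hA1 : -(π / 2) < A := neg_pi_div_two_lt_arctan _
  have hA2 : A < π / 2 := arctan_lt_pi_div_two _
  have hcA : 0 < cos A := cos_arctan_pos _
  have hsA : sin θ * sin A = (z - cos θ) * cos A := by
    have h1 : sin A = (z - cos θ) / sin θ * cos A := by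
      rw [hA, sin_arctan, cos_arctan]; ring
    rw [h1]; field_simp
  have hcB : cos (A - θ) = z * cos A := by
    rw [cos_sub]
    linarith
  have hsB : sin θ * sin (A - θ) = (z * cos θ - 1) * cos A := by
    rw [sin_sub]
    have h4 : sin θ ^ 2 = 1 - cos θ ^ 2 := by have := sin_sq_add_cos_sq θ; linarith
    have e : sin θ * (sin A * cos θ - cos A * sin θ) =
        (sin θ * sin A) * cos θ - cos A * sin θ ^ 2 := by ring
    rw [e, hsA, h4]
    ring
  have hB1 : -(π / 2) < A - θ := by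
    by_contra hcon
    push Not at hcon
    have h1 : cos (-(A - θ)) ≤ 0 := cos_nonpos_of_pi_div_two_le_of_le (by linarith)
      (by linarith [hθ.2])
    rw [cos_neg, hcB] at h1
    have : 0 < z * cos A := by positivity
    linarith
  have h1 := h A (A - θ) hB1 (by linarith) hA2
  rw [sub_sub_cancel] at h1
  -- reduce to the quadratic
  have e1 : sin θ * (sin A * cos A - sin (A - θ) * cos (A - θ)) =
      cos A ^ 2 * (2 * z - cos θ - z ^ 2 * cos θ) := by
    have e : sin θ * (sin A * cos A - sin (A - θ) * cos (A - θ)) =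
        (sin θ * sin A) * cos A - (sin θ * sin (A - θ)) * cos (A - θ) := by ring
    rw [e, hsA, hsB, hcB]
    ring
  set S := sin A * cos A - sin (A - θ) * cos (A - θ) with hS
  have h2 : θ * S ≤ 4 * (α * cos (A - θ) ^ 2 + β * cos A ^ 2) := by
    have h3 : 0 ≤ 2 * θ * (4 * (α * cos (A - θ) ^ 2 + β * cos A ^ 2) - θ * S) := by nlinarith
    have h4 := nonneg_of_mul_nonneg_right h3 (by positivity)
    linarith
  rw [hcB] at h2
  have h3 : θ * (sin θ * S) ≤ sin θ * (4 * (α * (z * cos A) ^ 2 + β * cos A ^ 2)) := by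
    have := mul_le_mul_of_nonneg_left h2 hs.le
    linarith
  rw [e1] at h3
  have h4 : 0 ≤ cos A ^ 2 * (4 * sin θ * (α * z ^ 2 + β) -
      θ * (2 * z - cos θ - z ^ 2 * cos θ)) := by
    have e : cos A ^ 2 * (4 * sin θ * (α * z ^ 2 + β) - θ * (2 * z - cos θ - z ^ 2 * cos θ)) =
        sin θ * (4 * (α * (z * cos A) ^ 2 + β * cos A ^ 2)) -
        θ * (cos A ^ 2 * (2 * z - cos θ - z ^ 2 * cos θ)) := by ring
    rw [e]; linarith
  have h5 := nonneg_of_mul_nonneg_right h4 (by positivity)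
  have e2 : (α + θ / 4 * (cos θ / sin θ)) * z ^ 2 - 2 * (θ / (4 * sin θ)) * z +
      (β + θ / 4 * (cos θ / sin θ)) = (4 * sin θ * (α * z ^ 2 + β) -
      θ * (2 * z - cos θ - z ^ 2 * cos θ)) / (4 * sin θ) := by
    field_simp
    ring
  rw [e2]
  positivity

/-- No boundary terms help beyond the constant of the line. -/
lemma no_test {c α β : ℝ} (hc : π ^ 2 / 4 ≤ c)
    (h : ∀ A B : ℝ, -(π / 2) < B → B < A → A < π / 2 →
      4 * c * (A - B + (sin A * cos A - sin B * cos B)) ≤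
      (A - B) ^ 2 * (A - B - (sin A * cos A - sin B * cos B)) +
      8 * (A - B) * (α * cos B ^ 2 + β * cos A ^ 2)) : False := by
  set K : ℝ := |α| + |β| with hK
  have hK0 : 0 ≤ K := by positivity
  set e : ℝ := 1 / (1 + 2 * K) with he
  have he0 : 0 < e := by positivity
  have he1 : e ≤ 1 := by rw [he, div_le_one (by positivity)]; linarith
  have hπ := pi_gt_three
  have h1 := h (π / 2 - e) (-(π / 2 - e)) (by linarith) (by linarith) (by linarith)
  rw [sin_neg, cos_neg, sin_pi_div_two_sub, cos_pi_div_two_sub] at h1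
  have hs0 : 0 ≤ sin e := sin_nonneg_of_nonneg_of_le_pi he0.le (by linarith)
  have hc0 : 0 ≤ cos e := cos_nonneg_of_mem_Icc ⟨by linarith, by linarith⟩
  have hs1 : sin e ≤ e := sin_le he0.le
  have hs2 : sin e ^ 2 ≤ e ^ 2 := pow_le_pow_left₀ hs0 hs1 2
  set M : ℝ := π / 2 - e - -(π / 2 - e) with hM
  have hMe : M = π - 2 * e := by rw [hM]; ring
  have hM0 : 0 < M := by rw [hMe]; linarith
  have hS : cos e * sin e - -cos e * sin e = 2 * (cos e * sin e) := by ring
  rw [hS] at h1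
  have hsc : 0 ≤ cos e * sin e := mul_nonneg hc0 hs0
  have h2 : α * sin e ^ 2 + β * sin e ^ 2 ≤ K * e ^ 2 := by
    have h3 : α * sin e ^ 2 ≤ |α| * e ^ 2 :=
      mul_le_mul (le_abs_self _) hs2 (sq_nonneg _) (abs_nonneg _)
    have h4 : β * sin e ^ 2 ≤ |β| * e ^ 2 :=
      mul_le_mul (le_abs_self _) hs2 (sq_nonneg _) (abs_nonneg _)
    rw [hK]; linarith
  have h3 : π ^ 2 * M ≤ 4 * c * (M + 2 * (cos e * sin e)) := by
    have : π ^ 2 * M ≤ 4 * c * M := mul_le_mul_of_nonneg_right (by linarith) hM0.le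
    have h5 : 0 ≤ 4 * c * (2 * (cos e * sin e)) := by
      have : 0 ≤ c := le_trans (by positivity) hc
      positivity
    linarith
  have h4 : M ^ 2 * (M - 2 * (cos e * sin e)) ≤ M ^ 2 * M :=
    mul_le_mul_of_nonneg_left (by linarith) (by positivity)
  have h5 : 8 * M * (α * sin e ^ 2 + β * sin e ^ 2) ≤ 8 * M * (K * e ^ 2) :=
    mul_le_mul_of_nonneg_left h2 (by positivity)
  have h6 : 0 ≤ M * (M ^ 2 + 8 * (K * e ^ 2) - π ^ 2) := by nlinarith
  have h7 := nonneg_of_mul_nonneg_right h6 hM0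
  rw [hMe] at h7
  have h8 : 0 ≤ 4 * e * (e * (1 + 2 * K) - π) := by nlinarith
  have h9 := nonneg_of_mul_nonneg_right h8 (by positivity)
  have h10 : e * (1 + 2 * K) = 1 := by rw [he]; field_simp
  rw [h10] at h9
  linarith

end Pool.Agent.TH662.LT
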