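import Pool.Agent.TH662.LT.Cplx
import Pool.Agent.TH662.LT.Test

set_option autoImplicit false

open MeasureTheory Set Filter Topology Real
open scoped RealInnerProductSpace ENNReal

namespace Pool.Agent.TH662.LT

open Pool.Helper490.Sech
open Pool.Helper490.Calib (realify realify_norm sqn realifyL realifyL_apply)

lemma cont_of_prim {a b : ℝ} {u g : ℝ → ℂ} (hg : IntegrableOn g (Icc a b)) (hab : a ≤ b)
    (hug : ∀ x ∈ Icc a b, u x = u a + ∫ t in a..x, g t) : ContinuousOn u (Icc a b) := by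
  have h1 : ContinuousOn (fun x => u a + ∫ t in a..x, g t) (Icc a b) := by
    refine continuousOn_const.add ?_
    have := intervalIntegral.continuousOn_primitive_interval (μ := volume) (a := a) (b := b)
      (f := g) (by rw [uIcc_of_le hab]; exact hg)
    rwa [uIcc_of_le hab] at this
  exact h1.congr hug

/-- An integrable function takes small values arbitrarily far out. -/
lemma exists_small {ρ : ℝ → ℝ} (hρ : IntegrableOn ρ (Ioi 0)) {η : ℝ} (hη : 0 < η) (R : ℝ)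
    (hR : 0 ≤ R) : ∃ b, R ≤ b ∧ ρ b < η := by
  by_contra hcon
  push Not at hcon
  have h1 : IntegrableOn (fun _ : ℝ => η) (Ioi R) := by
    have h2 : IntegrableOn ρ (Ioi R) := hρ.mono_set (Ioi_subset_Ioi hR)
    refine Integrable.mono' h2 aestronglyMeasurable_const ?_
    rw [ae_restrict_iff' measurableSet_Ioi]
    refine Eventually.of_forall fun x hx => ?_
    rw [Real.norm_eq_abs, abs_of_pos hη]
    exact hcon x (le_of_lt hx)
  rw [integrableOn_const_iff] at h1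
  rcases h1 with h1 | h1
  · exact hη.ne' (by simpa using h1)
  · simp at h1

theorem half_of_orthonormal {N : ℕ} (u g : Fin N → ℝ → ℂ)
    (hu2 : ∀ n, MemLp (u n) 2 (volume.restrict (Ioi 0)))
    (hg2 : ∀ n, MemLp (g n) 2 (volume.restrict (Ioi 0)))
    (hug : ∀ n, ∀ x, 0 ≤ x → u n x = u n 0 + ∫ t in (0:ℝ)..x, g n t)
    (ho : ∀ n m, ∫ x in Ioi (0:ℝ), star (u n x) * u m x = if n = m then 1 else 0)
    {θ : ℝ} (hθ : θ ∈ Ioo 0 π) :
    IntegrableOn (fun x => (∑ n, ‖u n x‖ ^ 2) ^ 3) (Ioi 0) ∧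
      θ ^ 2 / 4 * (∫ x in Ioi (0:ℝ), (∑ n, ‖u n x‖ ^ 2) ^ 3) ≤
        (∑ n, ∫ x in Ioi (0:ℝ), ‖g n x‖ ^ 2) +
          -(θ / 4 * (cos θ / sin θ)) * (∑ n, ‖u n 0‖ ^ 2) ^ 2 := by
  have hθ0 : 0 < θ := hθ.1
  have hs : 0 < sin θ := sin_pos_of_mem_Ioo hθ
  set ρ : ℝ → ℝ := fun x => ∑ n, ‖u n x‖ ^ 2 with hρ
  have hρ0 : ∀ x, 0 ≤ ρ x := fun x => Finset.sum_nonneg fun n _ => sq_nonneg _
  set T : ℝ := ∑ n, ∫ x in Ioi (0:ℝ), ‖g n x‖ ^ 2 with hT
  have hui : ∀ n, IntegrableOn (fun x => ‖u n x‖ ^ 2) (Ioi 0) := fun n =>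
    (hu2 n).integrable_norm_pow (by norm_num)
  have hgi : ∀ n, IntegrableOn (fun x => ‖g n x‖ ^ 2) (Ioi 0) := fun n =>
    (hg2 n).integrable_norm_pow (by norm_num)
  have hρi : IntegrableOn ρ (Ioi 0) := integrable_finsetSum _ fun n _ => hui n
  have hmemI : ∀ n, ∀ b, MemLp (g n) 2 (volume.restrict (Icc 0 b)) := by
    intro n b
    have h1 : MemLp (g n) 2 (volume.restrict (Ioc 0 b)) :=
      (hg2 n).mono_measure (Measure.restrict_mono Ioc_subset_Ioi_self le_rfl)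
    rwa [Measure.restrict_congr_set Ioc_ae_eq_Icc] at h1
  have hucont : ∀ n, ∀ b, 0 ≤ b → ContinuousOn (u n) (Icc 0 b) := fun n b hb =>
    cont_of_prim ((hmemI n b).integrable (by norm_num)) hb fun x hx => hug n x hx.1
  have hρc : ∀ b, 0 ≤ b → ContinuousOn ρ (Icc 0 b) := fun b hb =>
    continuousOn_finset_sum _ fun n _ => (hucont n b hb).norm.pow 2
  have hρ3 : ∀ b, 0 ≤ b → IntervalIntegrable (fun x => ρ x ^ 3) volume 0 b := fun b hb =>
    ((hρc b hb).pow 3).intervalIntegrable_of_Icc hb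
  have hbes : ∀ b, 0 ≤ b → ∀ v, ∫ x in (0:ℝ)..b, ⟪realify (fun n => u n x), v⟫ ^ 2 ≤ ‖v‖ ^ 2 := by
    intro b hb v
    obtain ⟨h1, h2⟩ := bessel_restrict (volume.restrict (Ioi 0)) u (fun n => (hu2 n).1) hui ho v
    rw [intervalIntegral.integral_of_le hb]
    refine le_trans ?_ h2
    exact setIntegral_mono_set h1 (Eventually.of_forall fun x => sq_nonneg _)
      (Ioc_subset_Ioi_self.eventuallyLE)
  -- step 1
  have step1 : ∀ ω, -(π / 2) < ω - θ / 2 → ω + θ / 2 < π / 2 → ∀ R, 0 ≤ R →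
      θ ^ 2 / 4 * (∫ x in (0:ℝ)..R, ρ x ^ 3) ≤ T + θ / 4 * tan (θ / 2 - ω) * (ρ 0) ^ 2 := by
    intro ω hω1 hω2 R hR
    refine le_of_forall_pos_le_add fun ε hε => ?_
    set C : ℝ := |θ / 4 * tan (θ / 2 + ω)| + 1 with hC
    have hC0 : 0 < C := by positivity
    set η : ℝ := min 1 (ε / C) with hη
    have hη0 : 0 < η := by rw [hη]; positivity
    obtain ⟨b, hRb, hb⟩ := exists_small hρi hη0 R hR
    have hb0 : 0 ≤ b := hR.trans hRb
    have h1 := family_of_bessel hb0 u g (fun n => hmemI n b) (fun n x hx => hug n x hx.1)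
      (hbes b hb0) hθ0 hω1 hω2
    have h2 : ∫ x in (0:ℝ)..R, ρ x ^ 3 ≤ ∫ x in (0:ℝ)..b, ρ x ^ 3 :=
      intervalIntegral.integral_mono_interval le_rfl hR hRb
        (Eventually.of_forall fun x => pow_nonneg (hρ0 x) 3) (hρ3 b hb0)
    have h3 : ∑ n, ∫ x in (0:ℝ)..b, ‖g n x‖ ^ 2 ≤ T := by
      refine Finset.sum_le_sum fun n _ => ?_
      rw [intervalIntegral.integral_of_le hb0]
      exact setIntegral_mono_set (hgi n) (Eventually.of_forall fun x => sq_nonneg _)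
        (Ioc_subset_Ioi_self.eventuallyLE)
    have h4 : θ / 4 * tan (θ / 2 + ω) * (ρ b) ^ 2 ≤ ε := by
      have h5 : (ρ b) ^ 2 ≤ η := by
        have h6 : η ≤ 1 := min_le_left _ _
        have h7 := hρ0 b
        nlinarith
      calc θ / 4 * tan (θ / 2 + ω) * (ρ b) ^ 2 ≤ |θ / 4 * tan (θ / 2 + ω)| * (ρ b) ^ 2 :=
            mul_le_mul_of_nonneg_right (le_abs_self _) (sq_nonneg _)
        _ ≤ C * η := mul_le_mul (by rw [hC]; linarith) h5 (sq_nonneg _) hC0.le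
        _ ≤ C * (ε / C) := mul_le_mul_of_nonneg_left (min_le_right _ _) hC0.le
        _ = ε := by field_simp
    have h5 : θ ^ 2 / 4 * (∫ x in (0:ℝ)..R, ρ x ^ 3) ≤ θ ^ 2 / 4 * ∫ x in (0:ℝ)..b, ρ x ^ 3 :=
      mul_le_mul_of_nonneg_left h2 (by positivity)
    calc θ ^ 2 / 4 * (∫ x in (0:ℝ)..R, ρ x ^ 3) ≤ θ ^ 2 / 4 * ∫ x in (0:ℝ)..b, ρ x ^ 3 := h5
      _ ≤ (∑ n, ∫ x in (0:ℝ)..b, ‖g n x‖ ^ 2) + (θ / 4 * tan (θ / 2 - ω) * (ρ 0) ^ 2 +
        θ / 4 * tan (θ / 2 + ω) * (ρ b) ^ 2) := h1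
      _ ≤ T + θ / 4 * tan (θ / 2 - ω) * (ρ 0) ^ 2 + ε := by linarith
  -- step 2
  have step2 : ∀ R, 0 ≤ R → θ ^ 2 / 4 * (∫ x in (0:ℝ)..R, ρ x ^ 3) ≤
      T + -(θ / 4 * (cos θ / sin θ)) * (ρ 0) ^ 2 := by
    intro R hR
    have htan : tan (θ - π / 2) = -(cos θ / sin θ) := by
      rw [tan_eq_sin_div_cos, sin_sub_pi_div_two, cos_sub_pi_div_two, neg_div]
    have hcpos : cos (θ - π / 2) ≠ 0 := by rw [cos_sub_pi_div_two]; exact hs.ne'
    have hc1 : Tendsto (fun e : ℝ => θ - π / 2 + e) (𝓝[>] 0) (𝓝 (θ - π / 2)) := by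
      have : Tendsto (fun e : ℝ => θ - π / 2 + e) (𝓝 0) (𝓝 (θ - π / 2 + 0)) :=
        (continuous_const.add continuous_id).tendsto 0
      rw [add_zero] at this
      exact this.mono_left nhdsWithin_le_nhds
    have hc2 : Tendsto (fun e : ℝ => T + θ / 4 * tan (θ - π / 2 + e) * (ρ 0) ^ 2) (𝓝[>] 0)
        (𝓝 (T + θ / 4 * tan (θ - π / 2) * (ρ 0) ^ 2)) :=
      ((((continuousAt_tan.2 hcpos).tendsto.comp hc1).const_mul _).mul_const _).const_add _
    have h1 : ∀ᶠ e : ℝ in 𝓝[>] 0, θ ^ 2 / 4 * (∫ x in (0:ℝ)..R, ρ x ^ 3) ≤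
        T + θ / 4 * tan (θ - π / 2 + e) * (ρ 0) ^ 2 := by
      have h2 : Ioo 0 (π - θ) ∈ 𝓝[>] (0:ℝ) := Ioo_mem_nhdsGT (by linarith [hθ.2])
      filter_upwards [h2] with e he
      have h3 := step1 ((π - θ) / 2 - e) (by linarith [he.2]) (by linarith [he.1]) R hR
      have e1 : θ / 2 - ((π - θ) / 2 - e) = θ - π / 2 + e := by ring
      rwa [e1] at h3
    have h2 := ge_of_tendsto hc2 h1
    rw [htan] at h2
    linarith
  -- step 3
  have hI : IntegrableOn (fun x => ρ x ^ 3) (Ioi 0) := by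
    refine integrableOn_Ioi_of_intervalIntegral_norm_bounded (l := atTop) (b := fun k : ℕ => (k:ℝ))
      ((T + -(θ / 4 * (cos θ / sin θ)) * (ρ 0) ^ 2) / (θ ^ 2 / 4)) 0 (fun k => ?_)
      tendsto_natCast_atTop_atTop (Eventually.of_forall fun k => ?_)
    · exact (intervalIntegrable_iff_integrableOn_Ioc_of_le (Nat.cast_nonneg k)).1
        (hρ3 _ (Nat.cast_nonneg k))
    · have h1 := step2 k (Nat.cast_nonneg k)
      have h2 : ∫ x in (0:ℝ)..k, ‖ρ x ^ 3‖ = ∫ x in (0:ℝ)..k, ρ x ^ 3 :=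
        intervalIntegral.integral_congr fun x _ => by
          simp only [Real.norm_eq_abs]
          exact abs_of_nonneg (pow_nonneg (hρ0 x) 3)
      rw [h2, le_div_iff₀ (by positivity)]
      linarith
  refine ⟨hI, ?_⟩
  have h1 : Tendsto (fun k : ℕ => θ ^ 2 / 4 * ∫ x in (0:ℝ)..k, ρ x ^ 3) atTop
      (𝓝 (θ ^ 2 / 4 * ∫ x in Ioi (0:ℝ), ρ x ^ 3)) :=
    (intervalIntegral_tendsto_integral_Ioi 0 hI tendsto_natCast_atTop_atTop).const_mul _
  exact le_of_tendsto h1 (Eventually.of_forall fun k => step2 k (Nat.cast_nonneg k))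

/-- The inequality evaluated at the test functions on the half-line. -/
lemma test_half {c α : ℝ}
    (h : ∀ u g : ℝ → ℂ, MemLp u 2 (volume.restrict (Ioi 0)) →
      MemLp g 2 (volume.restrict (Ioi 0)) →
      (∀ x, 0 ≤ x → u x = u 0 + ∫ t in (0:ℝ)..x, g t) → ∫ x in Ioi (0:ℝ), ‖u x‖ ^ 2 = 1 →
      c * (∫ x in Ioi (0:ℝ), (‖u x‖ ^ 2) ^ 3) ≤ (∫ x in Ioi (0:ℝ), ‖g x‖ ^ 2) +
        α * (‖u 0‖ ^ 2) ^ 2)
    {B : ℝ} (hB : -(π / 2) < B) (hB2 : B < π / 2) :
    4 * c * (π / 2 - B - sin B * cos B) ≤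
      (π / 2 - B) ^ 2 * (π / 2 - B + sin B * cos B) + 8 * (π / 2 - B) * (α * cos B ^ 2) := by
  set M : ℝ := π / 2 - B with hM
  have hM0 : 0 < M := by rw [hM]; linarith
  set r : ℝ := (√M)⁻¹ with hr
  have hr2 : r ^ 2 = M⁻¹ := by rw [hr, inv_pow, Real.sq_sqrt hM0.le]
  set x1 := arsinh (tan B) with hx1
  have hgc : Continuous fun x => ((r * w' (x + x1) : ℝ) : ℂ) :=
    Complex.continuous_ofReal.comp (continuous_const.mul (w'_cont.comp (continuous_add_const x1)))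
  have huc : Continuous fun x => ((r * w (x + x1) : ℝ) : ℂ) :=
    Complex.continuous_ofReal.comp (continuous_const.mul (w_cont.comp (continuous_add_const x1)))
  have hi1 : IntegrableOn (fun x => (cosh (x + x1))⁻¹) (Ioi 0) :=
    (int_sech.comp_add_right x1).integrableOn
  have hi3 : IntegrableOn (fun x => (cosh (x + x1))⁻¹ ^ 3) (Ioi 0) :=
    (int_sech3.comp_add_right x1).integrableOn
  have htop : Tendsto (fun x : ℝ => x + x1) atTop atTop := tendsto_atTop_add_const_right _ _ tendsto_id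
  have I1 : ∫ x in Ioi (0:ℝ), (cosh (x + x1))⁻¹ = M := by
    rw [integral_Ioi_of_hasDerivAt_of_tendsto' (f := fun x => arctan (sinh (x + x1)))
      (m := π / 2) (fun x _ => (arctan_sinh_deriv (x + x1)).comp_add_const x x1) hi1
      (tendsto_arctan_sinh_top.comp htop), zero_add, hx1, arctan_sinh_arsinh_tan hB hB2]
  have I3 : ∫ x in Ioi (0:ℝ), (cosh (x + x1))⁻¹ ^ 3 = (M - sin B * cos B) / 2 := by
    have ht : Tendsto (fun x => 1 / 2 * (sinh (x + x1) * (cosh (x + x1))⁻¹ ^ 2 +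
        arctan (sinh (x + x1)))) atTop (𝓝 (1 / 2 * (0 + π / 2))) :=
      ((aux_top.comp htop).add (tendsto_arctan_sinh_top.comp htop)).const_mul _
    rw [integral_Ioi_of_hasDerivAt_of_tendsto' (f := fun x => 1 / 2 * (sinh (x + x1) *
      (cosh (x + x1))⁻¹ ^ 2 + arctan (sinh (x + x1))))
      (fun x _ => (sech3_deriv (x + x1)).comp_add_const x x1) hi3 ht, zero_add, zero_add, hx1,
      arctan_sinh_arsinh_tan hB hB2, sinh_sech_sq hB hB2, hM]
    ring
  have h1 := h (fun x => ((r * w (x + x1) : ℝ) : ℂ)) (fun x => ((r * w' (x + x1) : ℝ) : ℂ))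
    ?_ ?_ ?_ ?_
  · simp only [norm_cw, hr2, mul_pow M⁻¹, w_sq, w'_sq, zero_add] at h1
    rw [integral_const_mul, integral_const_mul, integral_const_mul, integral_sub hi1 hi3, I1, I3,
      hx1, sech_arsinh_tan hB hB2] at h1
    set S := sin B * cos B
    have h2 := mul_le_mul_of_nonneg_left h1 (by positivity : (0:ℝ) ≤ 8 * M ^ 3)
    have e1 : 8 * M ^ 3 * (c * (M⁻¹ ^ 3 * ((M - S) / 2))) = 4 * c * (M - S) := by
      field_simp; ring
    have e2 : 8 * M ^ 3 * (M⁻¹ * (1 / 4 * (M - (M - S) / 2)) + α * (M⁻¹ ^ 2 * cos B ^ 2)) =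
        M ^ 2 * (M + S) + 8 * M * (α * cos B ^ 2) := by
      field_simp; ring
    rw [e1, e2] at h2
    exact h2
  · refine (memLp_two_iff_integrable_sq_norm huc.aestronglyMeasurable).2 ?_
    simp only [norm_cw, w_sq]
    exact hi1.const_mul _
  · refine (memLp_two_iff_integrable_sq_norm hgc.aestronglyMeasurable).2 ?_
    simp only [norm_cw, w'_sq]
    exact ((hi1.sub hi3).const_mul _).const_mul _
  · intro x _
    rw [intervalIntegral.integral_eq_sub_of_hasDerivAt (f := fun x => ((r * w (x + x1) : ℝ) : ℂ))]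
    · ring
    · intro y _
      exact (((w_deriv (y + x1)).comp_add_const y x1).const_mul r).ofReal_comp
    · exact hgc.intervalIntegrable _ _
  · simp only [norm_cw, hr2, w_sq]
    rw [integral_const_mul, I1]
    field_simp

/-- Necessity on the half-line. -/
lemma cond_of_test_half {θ α : ℝ} (hθ : θ ∈ Ioo 0 π)
    (h : ∀ B : ℝ, -(π / 2) < B → B < π / 2 →
      4 * (θ ^ 2 / 4) * (π / 2 - B - sin B * cos B) ≤
      (π / 2 - B) ^ 2 * (π / 2 - B + sin B * cos B) + 8 * (π / 2 - B) * (α * cos B ^ 2)) :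
    -(θ / 4 * (cos θ / sin θ)) ≤ α := by
  have hs : 0 < sin θ := sin_pos_of_mem_Ioo hθ
  have hθ0 : 0 < θ := hθ.1
  have h1 := h (π / 2 - θ) (by linarith [hθ.2]) (by linarith)
  rw [sin_pi_div_two_sub, cos_pi_div_two_sub, sub_sub_cancel] at h1
  have h2 : 0 ≤ 8 * θ * sin θ * (α * sin θ + θ / 4 * cos θ) := by nlinarith
  have h3 := nonneg_of_mul_nonneg_right h2 (by positivity)
  have h4 : α + θ / 4 * (cos θ / sin θ) = (α * sin θ + θ / 4 * cos θ) / sin θ := by field_simp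
  have h5 : 0 ≤ α + θ / 4 * (cos θ / sin θ) := by rw [h4]; positivity
  linarith

lemma no_test_half {c α : ℝ} (hc : π ^ 2 / 4 ≤ c)
    (h : ∀ B : ℝ, -(π / 2) < B → B < π / 2 →
      4 * c * (π / 2 - B - sin B * cos B) ≤
      (π / 2 - B) ^ 2 * (π / 2 - B + sin B * cos B) + 8 * (π / 2 - B) * (α * cos B ^ 2)) :
    False := by
  set K : ℝ := |α| with hK
  have hK0 : 0 ≤ K := by positivity
  set e : ℝ := 1 / (1 + 8 * K) with he
  have he0 : 0 < e := by positivity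
  have he1 : e ≤ 1 := by rw [he, div_le_one (by positivity)]; linarith
  have hπ := pi_gt_three
  have h1 := h (-(π / 2 - e)) (by linarith) (by linarith)
  rw [sin_neg, cos_neg, sin_pi_div_two_sub, cos_pi_div_two_sub] at h1
  have hs0 : 0 ≤ sin e := sin_nonneg_of_nonneg_of_le_pi he0.le (by linarith)
  have hc0 : 0 ≤ cos e := cos_nonneg_of_mem_Icc ⟨by linarith, by linarith⟩
  have hs1 : sin e ≤ e := sin_le he0.le
  have hs2 : sin e ^ 2 ≤ e ^ 2 := pow_le_pow_left₀ hs0 hs1 2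
  set M : ℝ := π / 2 - -(π / 2 - e) with hM
  have hMe : M = π - e := by rw [hM]; ring
  have hM0 : 0 < M := by rw [hMe]; linarith
  have hsc : 0 ≤ cos e * sin e := mul_nonneg hc0 hs0
  have h2 : α * sin e ^ 2 ≤ K * e ^ 2 :=
    mul_le_mul (le_abs_self _) hs2 (sq_nonneg _) (abs_nonneg _)
  have h3 : π ^ 2 * M ≤ 4 * c * (M - -cos e * sin e) := by
    have : π ^ 2 * M ≤ 4 * c * M := mul_le_mul_of_nonneg_right (by linarith) hM0.le
    have h5 : 0 ≤ 4 * c * (cos e * sin e) := by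
      have : 0 ≤ c := le_trans (by positivity) hc
      positivity
    linarith
  have h4 : M ^ 2 * (M + -cos e * sin e) ≤ M ^ 2 * M :=
    mul_le_mul_of_nonneg_left (by linarith) (by positivity)
  have h5 : 8 * M * (α * sin e ^ 2) ≤ 8 * M * (K * e ^ 2) :=
    mul_le_mul_of_nonneg_left h2 (by positivity)
  have h6 : 0 ≤ M * (M ^ 2 + 8 * (K * e ^ 2) - π ^ 2) := by nlinarith
  have h7 := nonneg_of_mul_nonneg_right h6 hM0
  rw [hMe] at h7
  have h8 : 0 ≤ e * (e * (1 + 8 * K) - 2 * π) := by nlinarith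
  have h9 := nonneg_of_mul_nonneg_right h8 (by positivity)
  have h10 : e * (1 + 8 * K) = 1 := by rw [he]; field_simp
  rw [h10] at h9
  linarith

end Pool.Agent.TH662.LT
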