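import Pool.Agent.Helper490.CalibKer

set_option autoImplicit false

open Finset Set Real

namespace Pool.Agent.TH662.LT

open Pool.Helper490.Calib

/-- The kernel inequality for the shifted tangent. -/
lemma tan_kernel_shift {θ ω : ℝ} (hθ0 : 0 < θ) (hω1 : -(π / 2) < ω - θ / 2)
    (hω2 : ω + θ / 2 < π / 2) {s r t : ℝ}
    (hs : s ∈ Icc (-(1 / 2) : ℝ) (1 / 2)) (hr : r ∈ Icc (-(1 / 2) : ℝ) (1 / 2))
    (ht : t ∈ Icc (-(1 / 2) : ℝ) (1 / 2)) (hne : s ≠ r) :
    θ ^ 2 / 4 * (tan (θ / 2 * (s + t) + ω) * tan (θ / 2 * (r + t) + ω)) +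
      θ / 2 * ((-tan (θ / 2 * (s + t) + ω) - -tan (θ / 2 * (r + t) + ω)) / (s - r)) +
        θ ^ 2 / 4 ≤ 0 := by
  obtain ⟨hs1, hs2⟩ := hs
  obtain ⟨hr1, hr2⟩ := hr
  obtain ⟨ht1, ht2⟩ := ht
  wlog hlt : r < s generalizing s r
  · have h := this hne.symm hr1 hr2 hs1 hs2 (lt_of_le_of_ne (not_lt.1 hlt) hne)
    have e : (-tan (θ / 2 * (r + t) + ω) - -tan (θ / 2 * (s + t) + ω)) / (r - s) =
        (-tan (θ / 2 * (s + t) + ω) - -tan (θ / 2 * (r + t) + ω)) / (s - r) := by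
      rw [← neg_sub s r, div_neg, ← neg_div]; ring_nf
    rw [e, mul_comm (tan (θ / 2 * (r + t) + ω))] at h
    exact h
  have ha : θ / 2 * (s + t) + ω ∈ Ioo (-(π / 2)) (π / 2) := by constructor <;> nlinarith
  have hb : θ / 2 * (r + t) + ω ∈ Ioo (-(π / 2)) (π / 2) := by constructor <;> nlinarith
  have hab : θ / 2 * (r + t) + ω < θ / 2 * (s + t) + ω := by nlinarith
  have hab' : θ / 2 * (s + t) + ω - (θ / 2 * (r + t) + ω) < π / 2 := by nlinarith
  have key := tan_key ha hb hab hab'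
  have hsr : 0 < s - r := by linarith
  have e1 : (tan (θ / 2 * (s + t) + ω) - tan (θ / 2 * (r + t) + ω)) /
      (θ / 2 * (s + t) + ω - (θ / 2 * (r + t) + ω)) =
      2 / θ * ((tan (θ / 2 * (s + t) + ω) - tan (θ / 2 * (r + t) + ω)) / (s - r)) := by
    have : θ / 2 * (s + t) + ω - (θ / 2 * (r + t) + ω) = θ / 2 * (s - r) := by ring
    rw [this]
    field_simp
  rw [e1] at key
  have e2 : (-tan (θ / 2 * (s + t) + ω) - -tan (θ / 2 * (r + t) + ω)) / (s - r) =
      - ((tan (θ / 2 * (s + t) + ω) - tan (θ / 2 * (r + t) + ω)) / (s - r)) := by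
    rw [← neg_div]; ring_nf
  rw [e2]
  have h3 := mul_le_mul_of_nonneg_left key (by positivity : (0:ℝ) ≤ θ ^ 2 / 4)
  have e3 : θ ^ 2 / 4 * (2 / θ * ((tan (θ / 2 * (s + t) + ω) - tan (θ / 2 * (r + t) + ω)) /
      (s - r))) =
      θ / 2 * ((tan (θ / 2 * (s + t) + ω) - tan (θ / 2 * (r + t) + ω)) / (s - r)) := by
    field_simp
    ring
  rw [e3] at h3
  linarith

/-- The index set of the polynomial kernels. -/
def S1 (K : ℕ) : Finset Idx := (range K).sigma fun n => antidiagonal n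

/-- The coefficients of the polynomial kernels. -/
noncomputable def w1 (a : ℕ → ℝ) : Idx → ℝ := fun q => a q.1 * (q.1.choose q.2.1)

/-- The polynomial kernel. -/
noncomputable def P1 (K : ℕ) (a : ℕ → ℝ) (s t : ℝ) : ℝ :=
  P (S1 K) (w1 a) (fun q => q.2.1) (fun q => q.2.2) s t

/-- The divided differences of the polynomial kernel. -/
noncomputable def D1 (K : ℕ) (a : ℕ → ℝ) (s r t : ℝ) : ℝ :=
  D (S1 K) (w1 a) (fun q => q.2.1) (fun q => q.2.2) s r t

lemma P1_eq (K : ℕ) (a : ℕ → ℝ) (s t : ℝ) : P1 K a s t = ∑ n ∈ range K, a n * (s + t) ^ n := by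
  unfold P1 P S1 w1
  rw [sum_sigma]
  refine sum_congr rfl fun n _ => ?_
  rw [(Commute.all s t).add_pow', mul_sum]
  refine sum_congr rfl fun q _ => ?_
  simp only [nsmul_eq_mul]
  ring

/-- The coefficients of an antiderivative with value `g` at zero. -/
noncomputable def anti (g : ℝ) (a : ℕ → ℝ) : ℕ → ℝ
  | 0 => g
  | n + 1 => a n / (n + 1)

lemma anti_sum (g : ℝ) (a : ℕ → ℝ) (K : ℕ) (x : ℝ) :
    ∑ n ∈ range (K + 1), anti g a n * x ^ n = g + FF K a x := by
  rw [sum_range_succ', FF]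
  simp only [anti, pow_zero, mul_one]
  ring

/-- Existence of the polynomial kernels. -/
theorem exists_kernel_shift {θ ω : ℝ} (hθ0 : 0 < θ) (hω1 : -(π / 2) < ω - θ / 2)
    (hω2 : ω + θ / 2 < π / 2) {δ : ℝ} (hδ : 0 < δ) :
    ∃ (K : ℕ) (a : ℕ → ℝ),
      (∀ s t, P1 K a s t = P1 K a t s) ∧
      (∀ s ∈ Icc (-(1 / 2) : ℝ) (1 / 2), ∀ t ∈ Icc (-(1 / 2) : ℝ) (1 / 2),
        |P1 K a s t - -tan (θ / 2 * (s + t) + ω)| ≤ δ) ∧
      ∀ s ∈ Icc (-(1 / 2) : ℝ) (1 / 2), ∀ r ∈ Icc (-(1 / 2) : ℝ) (1 / 2),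
        ∀ t ∈ Icc (-(1 / 2) : ℝ) (1 / 2),
        4 * (θ / 4) ^ 2 * (P1 K a t s * P1 K a t r) + θ / 4 * D1 K a s r t +
          (θ ^ 2 / 4 - δ) ≤ 0 := by
  set C : ℝ := |tan (ω - θ / 2)| + |tan (ω + θ / 2)| with hC
  have hC0 : 0 ≤ C := by positivity
  have hlo : ω - θ / 2 ∈ Ioo (-(π / 2)) (π / 2) := by constructor <;> linarith
  have hhi : ω + θ / 2 ∈ Ioo (-(π / 2)) (π / 2) := by constructor <;> linarith
  set B : ℝ := 4 * (θ / 4) ^ 2 * (2 * C + 1) + 2 * (θ / 4) with hB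
  have hB0 : 0 < B := by positivity
  set ε : ℝ := min (min 1 δ) (δ / B) with hε
  have hε0 : 0 < ε := lt_min (lt_min one_pos hδ) (div_pos hδ hB0)
  have hε1 : ε ≤ 1 := (min_le_left _ _).trans (min_le_left _ _)
  have hεδ : ε ≤ δ := (min_le_left _ _).trans (min_le_right _ _)
  have hεB : ε * B ≤ δ := by
    have := min_le_right (min 1 δ) (δ / B)
    rw [← hε, le_div_iff₀ hB0] at this
    exact this
  have hmem : ∀ x ∈ Icc (-1 : ℝ) 1, θ / 2 * x + ω ∈ Ioo (-(π / 2)) (π / 2) := by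
    intro x hx
    obtain ⟨h1, h2⟩ := hx
    constructor <;> nlinarith
  have hcos : ∀ x ∈ Icc (-1 : ℝ) 1, cos (θ / 2 * x + ω) ≠ 0 := fun x hx =>
    (cos_pos_of_mem_Ioo (hmem x hx)).ne'
  have hcont : ContinuousOn (fun x : ℝ => -(θ / 2 * (1 / cos (θ / 2 * x + ω) ^ 2)))
      (Icc (-1) 1) := by
    refine (ContinuousOn.mul continuousOn_const (ContinuousOn.div continuousOn_const ?_ ?_)).neg
    · fun_prop
    · intro x hx
      exact pow_ne_zero 2 (hcos x hx)
  obtain ⟨q, hq⟩ := exists_polynomial_near_of_continuousOn (-1) 1 _ hcont ε hε0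
  set K : ℕ := q.natDegree + 1 with hK
  set g : ℝ := -tan ω with hg
  set a : ℕ → ℝ := anti g q.coeff with ha
  set F : ℝ → ℝ := fun x => g + FF K q.coeff x with hF
  have hPF : ∀ s t, P1 (K + 1) a s t = F (s + t) := by
    intro s t
    rw [P1_eq, ha, anti_sum]
  have hFd : ∀ x, HasDerivAt F (q.eval x) x := by
    intro x
    rw [Polynomial.eval_eq_sum_range]
    exact (FF_deriv K q.coeff x).const_add g
  set G : ℝ → ℝ := fun x => -tan (θ / 2 * x + ω) with hG
  have hGd : ∀ x ∈ Icc (-1 : ℝ) 1, HasDerivAt G (-(θ / 2 * (1 / cos (θ / 2 * x + ω) ^ 2))) x := by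
    intro x hx
    have h1 : HasDerivAt (fun x : ℝ => θ / 2 * x + ω) (θ / 2) x := by
      simpa using ((hasDerivAt_id x).const_mul (θ / 2)).add_const ω
    have h2 := (hasDerivAt_tan (hcos x hx)).comp x h1
    refine h2.neg.congr_deriv ?_
    ring
  set H : ℝ → ℝ := fun x => F x - G x with hH
  have hHd : ∀ x ∈ Icc (-1 : ℝ) 1,
      HasDerivWithinAt H (q.eval x - -(θ / 2 * (1 / cos (θ / 2 * x + ω) ^ 2))) (Icc (-1) 1) x :=
    fun x hx => ((hFd x).sub (hGd x hx)).hasDerivWithinAt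
  have hHL : ∀ x ∈ Icc (-1 : ℝ) 1, ∀ y ∈ Icc (-1 : ℝ) 1, |H y - H x| ≤ ε * |y - x| := by
    intro x hx y hy
    have := (convex_Icc (-1 : ℝ) 1).norm_image_sub_le_of_norm_hasDerivWithin_le (C := ε) hHd
      (fun z hz => by rw [Real.norm_eq_abs]; exact (hq z hz).le) hx hy
    simpa only [Real.norm_eq_abs] using this
  have hH0 : H 0 = 0 := by simp [hH, hG, hF, hg, FF_zero]
  have hHb : ∀ x ∈ Icc (-1 : ℝ) 1, |H x| ≤ ε := by
    intro x hx
    have h1 := hHL 0 (by constructor <;> norm_num) x hx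
    rw [hH0, sub_zero, sub_zero] at h1
    have h2 : |x| ≤ 1 := abs_le.2 hx
    nlinarith
  have hGb : ∀ x ∈ Icc (-1 : ℝ) 1, |G x| ≤ C := by
    intro x hx
    simp only [hG, abs_neg, hC]
    have hm := hmem x hx
    obtain ⟨h1, h2⟩ := hx
    have i1 : tan (ω - θ / 2) ≤ tan (θ / 2 * x + ω) :=
      strictMonoOn_tan.monotoneOn hlo hm (by nlinarith)
    have i2 : tan (θ / 2 * x + ω) ≤ tan (ω + θ / 2) :=
      strictMonoOn_tan.monotoneOn hm hhi (by nlinarith)
    rw [abs_le]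
    constructor
    · have := neg_abs_le (tan (ω - θ / 2))
      have := abs_nonneg (tan (ω + θ / 2))
      linarith
    · have := le_abs_self (tan (ω + θ / 2))
      have := abs_nonneg (tan (ω - θ / 2))
      linarith
  have hsymm : ∀ s t, P1 (K + 1) a s t = P1 (K + 1) a t s := fun s t => by
    rw [hPF, hPF, add_comm]
  refine ⟨K + 1, a, hsymm, ?_, ?_⟩
  · intro s hs t ht
    have hw : s + t ∈ Icc (-1 : ℝ) 1 := ⟨by linarith [hs.1, ht.1], by linarith [hs.2, ht.2]⟩
    rw [hPF]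
    exact (hHb _ hw).trans hεδ
  -- the inequality off the diagonal
  have hoff : ∀ s ∈ Icc (-(1 / 2) : ℝ) (1 / 2), ∀ r ∈ Icc (-(1 / 2) : ℝ) (1 / 2),
        ∀ t ∈ Icc (-(1 / 2) : ℝ) (1 / 2), s ≠ r →
        4 * (θ / 4) ^ 2 * (P1 (K + 1) a t s * P1 (K + 1) a t r) +
        θ / 4 * D1 (K + 1) a s r t + (θ ^ 2 / 4 - δ) ≤ 0 := by
    intro s hs r hr t ht hne
    have hsr : s - r ≠ 0 := sub_ne_zero.2 hne
    have hw : s + t ∈ Icc (-1 : ℝ) 1 := ⟨by linarith [hs.1, ht.1], by linarith [hs.2, ht.2]⟩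
    have hw' : r + t ∈ Icc (-1 : ℝ) 1 := ⟨by linarith [hr.1, ht.1], by linarith [hr.2, ht.2]⟩
    have hD : D1 (K + 1) a s r t = 2 * ((F (s + t) - F (r + t)) / (s - r)) := by
      have := D_mul (S1 (K + 1)) (w1 a) (fun q => q.2.1) (fun q => q.2.2) s r t
      change D1 (K + 1) a s r t * (s - r) = (P1 (K + 1) a s t - P1 (K + 1) a r t) +
        (P1 (K + 1) a t s - P1 (K + 1) a t r) at this
      rw [hPF, hPF, hPF, hPF, add_comm t s, add_comm t r] at this
      rw [← mul_div_assoc, eq_div_iff hsr, this]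
      ring
    rw [hD, hPF, hPF, add_comm t s, add_comm t r]
    have hker := tan_kernel_shift hθ0 hω1 hω2 hs hr ht hne
    have hFG : ∀ x, F x = G x + H x := fun x => by simp [hH]
    rw [hFG, hFG (r + t)]
    have h1 := abs_le.1 (hHb _ hw)
    have h2 := abs_le.1 (hHb _ hw')
    have h3 := abs_le.1 (hGb _ hw)
    have h4 := abs_le.1 (hGb _ hw')
    have h5 : |(H (s + t) - H (r + t)) / (s - r)| ≤ ε := by
      rw [abs_div, div_le_iff₀ (abs_pos.2 hsr)]
      have := hHL _ hw' _ hw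
      have e : s + t - (r + t) = s - r := by ring
      rwa [e] at this
    have h5' := (abs_le.1 h5).2
    have e1 : (G (s + t) + H (s + t) - (G (r + t) + H (r + t))) / (s - r) =
        (G (s + t) - G (r + t)) / (s - r) + (H (s + t) - H (r + t)) / (s - r) := by
      rw [← add_div]; ring
    rw [e1]
    have hker' : θ ^ 2 / 4 * (G (s + t) * G (r + t)) +
      θ / 2 * ((G (s + t) - G (r + t)) / (s - r)) + θ ^ 2 / 4 ≤ 0 := by
      have e : G (s + t) * G (r + t) =
          tan (θ / 2 * (s + t) + ω) * tan (θ / 2 * (r + t) + ω) := by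
        simp only [hG]; ring
      rw [e]
      exact hker
    have hcross : |G (s + t) * H (r + t) + H (s + t) * G (r + t) + H (s + t) * H (r + t)| ≤
        ε * (2 * C + 1) := by
      have i1 : |G (s + t) * H (r + t)| ≤ C * ε := by
        rw [abs_mul]; exact mul_le_mul (hGb _ hw) (hHb _ hw') (abs_nonneg _) hC0
      have i2 : |H (s + t) * G (r + t)| ≤ ε * C := by
        rw [abs_mul]; exact mul_le_mul (hHb _ hw) (hGb _ hw') (abs_nonneg _) hε0.le
      have i3 : |H (s + t) * H (r + t)| ≤ ε * ε := by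
        rw [abs_mul]; exact mul_le_mul (hHb _ hw) (hHb _ hw') (abs_nonneg _) hε0.le
      have i4 := abs_add_three (G (s + t) * H (r + t)) (H (s + t) * G (r + t))
        (H (s + t) * H (r + t))
      nlinarith
    have hcross' := (abs_le.1 hcross).2
    have h6 := mul_le_mul_of_nonneg_left hcross' (by positivity : (0:ℝ) ≤ 4 * (θ / 4) ^ 2)
    have h7 := mul_le_mul_of_nonneg_left h5' (by positivity : (0:ℝ) ≤ 2 * (θ / 4))
    have h8 : 4 * (θ / 4) ^ 2 * (ε * (2 * C + 1)) + 2 * (θ / 4) * ε = ε * B := by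
      rw [hB]; ring
    nlinarith
  intro s hs r hr t ht
  by_cases hne : s = r
  · subst hne
    have hclos : ∀ y ∈ Icc (-(1 / 2) : ℝ) (1 / 2), y ≠ s →
        4 * (θ / 4) ^ 2 * (P1 (K + 1) a t y * P1 (K + 1) a t s) +
        θ / 4 * D1 (K + 1) a y s t + (θ ^ 2 / 4 - δ) ≤ 0 :=
      fun y hy hys => hoff y hy s hs t ht hys
    have hcontf : Continuous fun y =>
        4 * (θ / 4) ^ 2 * (P1 (K + 1) a t y * P1 (K + 1) a t s) +
        θ / 4 * D1 (K + 1) a y s t + (θ ^ 2 / 4 - δ) :=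
      ((continuous_const.mul ((P_continuous_right (S1 (K + 1)) (w1 a) _ _ t).mul
        continuous_const)).add
        (continuous_const.mul (D_continuous (S1 (K + 1)) (w1 a) _ _ s t))).add continuous_const
    set v : ℝ := if 0 < s then -1 else 1 with hv
    have hseq : Filter.Tendsto (fun n : ℕ => s + v * (1 / ((n : ℝ) + 2))) Filter.atTop
        (nhds (s + v * 0)) := by
      have h1 : Filter.Tendsto (fun n : ℕ => 1 / ((n : ℝ) + 2)) Filter.atTop (nhds 0) := by
        have := (tendsto_one_div_add_atTop_nhds_zero_nat (𝕜 := ℝ)).comp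
          (Filter.tendsto_add_atTop_nat 1)
        refine this.congr fun n => ?_
        simp only [Function.comp]
        push_cast
        ring_nf
      exact (h1.const_mul v).const_add s
    rw [mul_zero, add_zero] at hseq
    have hlim := (hcontf.tendsto s).comp hseq
    refine le_of_tendsto hlim (Filter.Eventually.of_forall fun n => ?_)
    have hn : (0:ℝ) < 1 / ((n : ℝ) + 2) := by positivity
    have hn2 : 1 / ((n : ℝ) + 2) ≤ 1 / 2 := by
      refine one_div_le_one_div_of_le (by norm_num) ?_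
      have : (0:ℝ) ≤ n := Nat.cast_nonneg n
      linarith
    refine hclos _ ?_ ?_
    · by_cases h0 : 0 < s
      · simp only [hv, if_pos h0]
        constructor <;> linarith [hs.1, hs.2]
      · simp only [hv, if_neg h0]
        have : s ≤ 0 := not_lt.1 h0
        constructor <;> linarith [hs.1, hs.2]
    · by_cases h0 : 0 < s
      · simp only [hv, if_pos h0]
        intro h
        linarith
      · simp only [hv, if_neg h0]
        intro h
        linarith
  · exact hoff s hs r hr t ht hne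

end Pool.Agent.TH662.LT
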