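import Pool.Agent.Helper490.CalibMain
import Pool.Agent.TH662.LT.Ker

set_option autoImplicit false

open MeasureTheory Set Filter Topology Real
open scoped RealInnerProductSpace

namespace Pool.Agent.TH662.LT

open Pool.Helper490.Calib

variable {E : Type*} [NormedAddCommGroup E] [InnerProductSpace ℝ E] [FiniteDimensional ℝ E]

/-- A vector valued function on an interval whose Gram operator is at most the identity. -/
structure SysI (a b : ℝ) (u u' : ℝ → E) : Prop where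
  hab : a ≤ b
  hu : ∀ x, HasDerivAt u (u' x) x
  hu'c : Continuous u'
  hbes : ∀ v : E, ∫ x in a..b, ⟪u x, v⟫ ^ 2 ≤ ‖v‖ ^ 2

/-- The partial Gram operator. -/
noncomputable def GamI (a : ℝ) (u : ℝ → E) (x : ℝ) : E →L[ℝ] E := ∫ y in a..x, R u y

/-- The shifted partial Gram operator. -/
noncomputable def BopI (a : ℝ) (u : ℝ → E) (x : ℝ) : E →L[ℝ] E :=
  GamI a u x - (1 / 2 : ℝ) • 1

/-- The moments. -/
noncomputable def moI (a : ℝ) (u : ℝ → E) (k : ℕ) (x : ℝ) : ℝ := ⟪u x, (BopI a u x ^ k) (u x)⟫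

/-- The moments with the derivative. -/
noncomputable def muI (a : ℝ) (u u' : ℝ → E) (k : ℕ) (x : ℝ) : ℝ :=
  ⟪u' x, (BopI a u x ^ k) (u x)⟫

namespace SysI

variable {a b : ℝ} {u u' : ℝ → E} (h : SysI a b u u')
include h

lemma uc : Continuous u := continuous_iff_continuousAt.2 fun x => (h.hu x).continuousAt

lemma Rc : Continuous (R u) := by
  have h1 : Continuous fun x => innerSL ℝ (u x) := (innerSL ℝ).continuous.comp h.uc
  have h2 := (ContinuousLinearMap.smulRightL ℝ E E).continuous.comp h1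
  exact h2.clm_apply h.uc

lemma Gam_deriv (x : ℝ) : HasDerivAt (GamI a u) (R u x) x :=
  (h.Rc.integral_hasStrictDerivAt a x).hasDerivAt

lemma Bop_deriv (x : ℝ) : HasDerivAt (BopI a u) (R u x) x := (h.Gam_deriv x).sub_const _

lemma Bop_cont : Continuous (BopI a u) :=
  continuous_iff_continuousAt.2 fun x => (h.Bop_deriv x).continuousAt

lemma Gam_inner (x : ℝ) (v w : E) :
    ⟪GamI a u x v, w⟫ = ∫ y in a..x, ⟪u y, v⟫ * ⟪u y, w⟫ := by
  set L : (E →L[ℝ] E) →L[ℝ] ℝ := (innerSL ℝ w).comp (ContinuousLinearMap.apply ℝ E v) with hL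
  have h1 : L (∫ y in a..x, R u y) = ∫ y in a..x, L (R u y) :=
    (L.intervalIntegral_comp_comm (h.Rc.intervalIntegrable _ _)).symm
  have h2 : L (∫ y in a..x, R u y) = ⟪GamI a u x v, w⟫ := by
    simp only [hL, ContinuousLinearMap.comp_apply, ContinuousLinearMap.apply_apply,
      innerSL_apply_apply, GamI]
    exact real_inner_comm _ _
  rw [← h2, h1]
  refine intervalIntegral.integral_congr fun y _ => ?_
  simp only [hL, ContinuousLinearMap.comp_apply, ContinuousLinearMap.apply_apply,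
    innerSL_apply_apply, Pool.Helper490.Calib.R_apply, real_inner_smul_right]
  rw [real_inner_comm w (u y)]

lemma sq_cont (v : E) : Continuous (fun y => ⟪u y, v⟫ ^ 2) :=
  (h.uc.inner continuous_const).pow 2

lemma Gam_nonneg {x : ℝ} (hx : a ≤ x) (v : E) : 0 ≤ ⟪GamI a u x v, v⟫ := by
  rw [h.Gam_inner]
  exact intervalIntegral.integral_nonneg hx fun y _ => mul_self_nonneg _

lemma Gam_le {x : ℝ} (hx : x ∈ Icc a b) (v : E) : ⟪GamI a u x v, v⟫ ≤ ‖v‖ ^ 2 := by
  rw [h.Gam_inner]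
  refine le_trans ?_ (h.hbes v)
  have : ∀ y, ⟪u y, v⟫ * ⟪u y, v⟫ = ⟪u y, v⟫ ^ 2 := fun y => (pow_two _).symm
  simp only [this]
  have h1 : (∫ y in a..b, ⟪u y, v⟫ ^ 2) = (∫ y in a..x, ⟪u y, v⟫ ^ 2) +
      ∫ y in x..b, ⟪u y, v⟫ ^ 2 :=
    (intervalIntegral.integral_add_adjacent_intervals
      ((h.sq_cont v).intervalIntegrable _ _) ((h.sq_cont v).intervalIntegrable _ _)).symm
  have h2 : 0 ≤ ∫ y in x..b, ⟪u y, v⟫ ^ 2 :=
    intervalIntegral.integral_nonneg hx.2 fun y _ => sq_nonneg _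
  linarith

lemma Bop_inner (x : ℝ) (v w : E) : ⟪BopI a u x v, w⟫ = ⟪GamI a u x v, w⟫ - 1 / 2 * ⟪v, w⟫ := by
  simp only [BopI, ContinuousLinearMap.sub_apply, ContinuousLinearMap.smul_apply,
    ContinuousLinearMap.one_apply, inner_sub_left, real_inner_smul_left]

lemma Bop_symm (x : ℝ) (v w : E) : ⟪BopI a u x v, w⟫ = ⟪v, BopI a u x w⟫ := by
  rw [real_inner_comm (BopI a u x w) v, h.Bop_inner, h.Bop_inner, h.Gam_inner, h.Gam_inner,
    real_inner_comm w v]
  congr 2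
  funext y
  ring

lemma Bop_pow_symm (x : ℝ) (k : ℕ) (v w : E) :
    ⟪(BopI a u x ^ k) v, w⟫ = ⟪v, (BopI a u x ^ k) w⟫ := by
  induction k generalizing v w with
  | zero => simp
  | succ k ih =>
    rw [pow_succ, ContinuousLinearMap.mul_apply, ih, h.Bop_symm, ← ContinuousLinearMap.mul_apply,
      ← pow_succ', pow_succ]

lemma Bop_pow_deriv (x : ℝ) (k : ℕ) : HasDerivAt (fun x => BopI a u x ^ k)
    (∑ l ∈ Finset.range k, BopI a u x ^ l * R u x * BopI a u x ^ (k - 1 - l)) x := by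
  induction k with
  | zero => simpa using hasDerivAt_const x (1 : E →L[ℝ] E)
  | succ k ih =>
    have h1 := ih.mul (h.Bop_deriv x)
    have h2 : (fun x => BopI a u x ^ (k + 1)) = fun x => BopI a u x ^ k * BopI a u x := by
      funext x; rw [pow_succ]
    rw [h2]
    refine h1.congr_deriv ?_
    rw [Finset.sum_range_succ, Finset.sum_mul, Nat.add_sub_cancel, Nat.sub_self, pow_zero, mul_one]
    congr 1
    refine Finset.sum_congr rfl fun l hl => ?_
    have hl' : l < k := Finset.mem_range.1 hl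
    rw [mul_assoc, ← pow_succ]
    congr 2
    omega

lemma mo_deriv (x : ℝ) (k : ℕ) : HasDerivAt (moI a u k)
    (2 * muI a u u' k x + ∑ l ∈ Finset.range k, moI a u l x * moI a u (k - 1 - l) x) x := by
  have h1 := (h.Bop_pow_deriv x k).clm_apply (h.hu x)
  have h2 := (h.hu x).inner ℝ h1
  refine h2.congr_deriv ?_
  rw [inner_add_right, ContinuousLinearMap.sum_apply, inner_sum, ← h.Bop_pow_symm x k,
    real_inner_comm (u' x)]
  have h3 : ∀ l ∈ Finset.range k,
      ⟪u x, (BopI a u x ^ l * R u x * BopI a u x ^ (k - 1 - l)) (u x)⟫ =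
      moI a u l x * moI a u (k - 1 - l) x := by
    intro l _
    rw [ContinuousLinearMap.mul_apply, ContinuousLinearMap.mul_apply, Pool.Helper490.Calib.R_apply, map_smul,
      real_inner_smul_right]
    simp only [moI]
    ring
  rw [Finset.sum_congr rfl h3]
  simp only [muI]
  ring

lemma mo_cont (k : ℕ) : Continuous (moI a u k) :=
  continuous_iff_continuousAt.2 fun x => (h.mo_deriv x k).continuousAt

lemma mu_cont (k : ℕ) : Continuous (muI a u u' k) := by
  have h1 : Continuous fun x => (BopI a u x ^ k) (u x) := (h.Bop_cont.pow k).clm_apply h.uc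
  exact h.hu'c.inner h1

/-- Coordinates in an eigenbasis. -/
lemma coords {x : ℝ} (hx : x ∈ Icc a b) : ∃ (n : ℕ) (e c d : Fin n → ℝ),
    (∀ i, e i ∈ Icc (-(1 / 2) : ℝ) (1 / 2)) ∧
    (∀ k, moI a u k x = ∑ i, e i ^ k * c i ^ 2) ∧
    (∀ k, muI a u u' k x = ∑ i, e i ^ k * (c i * d i)) ∧
    ∑ i, d i ^ 2 = ‖u' x‖ ^ 2 ∧ ∑ i, c i ^ 2 = ‖u x‖ ^ 2 := by
  have hT : ((BopI a u x : E →L[ℝ] E) : E →ₗ[ℝ] E).IsSymmetric := fun v w => h.Bop_symm x v w
  set n := Module.finrank ℝ E with hn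
  set B := hT.eigenvectorBasis hn.symm with hB
  set e := hT.eigenvalues hn.symm with he
  have hbe : ∀ i, BopI a u x (B i) = e i • B i := fun i => hT.apply_eigenvectorBasis hn.symm i
  have hpow : ∀ i k, (BopI a u x ^ k) (B i) = e i ^ k • B i := by
    intro i k
    induction k with
    | zero => simp
    | succ k ih =>
      rw [pow_succ, ContinuousLinearMap.mul_apply, hbe, map_smul, ih, smul_smul, pow_succ, mul_comm]
  have hcoef : ∀ i k, ⟪B i, (BopI a u x ^ k) (u x)⟫ = e i ^ k * ⟪B i, u x⟫ := by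
    intro i k
    rw [← h.Bop_pow_symm, hpow, real_inner_smul_left]
  have hexp : ∀ v w : E, ⟪v, w⟫ = ∑ i, ⟪B i, v⟫ * ⟪B i, w⟫ := by
    intro v w
    rw [← B.sum_inner_mul_inner v w]
    refine Finset.sum_congr rfl fun i _ => ?_
    rw [real_inner_comm v (B i)]
  refine ⟨n, e, fun i => ⟪B i, u x⟫, fun i => ⟪B i, u' x⟫, ?_, ?_, ?_, ?_, ?_⟩
  · intro i
    have hb1 : ‖B i‖ = 1 := B.orthonormal.1 i
    have h1 := h.Gam_nonneg hx.1 (B i)
    have h2 := h.Gam_le hx (B i)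
    have h3 := h.Bop_inner x (B i) (B i)
    rw [hbe, real_inner_smul_left, real_inner_self_eq_norm_sq, hb1] at h3
    rw [hb1] at h2
    constructor <;> nlinarith
  · intro k
    rw [moI, hexp]
    refine Finset.sum_congr rfl fun i _ => ?_
    rw [hcoef]
    ring
  · intro k
    rw [muI, hexp]
    refine Finset.sum_congr rfl fun i _ => ?_
    rw [hcoef]
    ring
  · rw [← real_inner_self_eq_norm_sq, hexp]
    exact Finset.sum_congr rfl fun i _ => pow_two _
  · rw [← real_inner_self_eq_norm_sq, hexp]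
    exact Finset.sum_congr rfl fun i _ => pow_two _

lemma mo_left (k : ℕ) : moI a u k a = (-(1 / 2)) ^ k * ‖u a‖ ^ 2 := by
  have h1 : BopI a u a = (-(1 / 2) : ℝ) • (1 : E →L[ℝ] E) := by
    rw [BopI, GamI, intervalIntegral.integral_same, zero_sub, neg_smul]
  rw [moI, h1, smul_pow, one_pow, ContinuousLinearMap.smul_apply, ContinuousLinearMap.one_apply,
    real_inner_smul_right, real_inner_self_eq_norm_sq]

/-- The calibration argument for a polynomial kernel on an interval. -/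
theorem calibrated {ι : Type*} (S : Finset ι) (w : ι → ℝ) (α β : ι → ℕ) (κ c0 : ℝ)
    (hsym : ∀ s t, P S w α β s t = P S w α β t s)
    (hK : ∀ s ∈ Icc (-(1 / 2) : ℝ) (1 / 2), ∀ r ∈ Icc (-(1 / 2) : ℝ) (1 / 2),
        ∀ t ∈ Icc (-(1 / 2) : ℝ) (1 / 2),
      4 * κ ^ 2 * (P S w α β t s * P S w α β t r) + κ * D S w α β s r t + c0 ≤ 0) :
    c0 * (∫ x in a..b, (‖u x‖ ^ 2) ^ 3) +
      ((κ * ∑ q ∈ S, w q * (moI a u (α q) b * moI a u (β q) b)) -
        κ * ∑ q ∈ S, w q * (moI a u (α q) a * moI a u (β q) a)) ≤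
      ∫ x in a..b, ‖u' x‖ ^ 2 := by
  set Dm : ℕ → ℝ → ℝ := fun k x =>
    2 * muI a u u' k x + ∑ l ∈ Finset.range k, moI a u l x * moI a u (k - 1 - l) x with hDm
  set Φ : ℝ → ℝ := fun x => κ * ∑ q ∈ S, w q * (moI a u (α q) x * moI a u (β q) x) with hΦ
  set Φ' : ℝ → ℝ := fun x => κ * ∑ q ∈ S, w q *
    (Dm (α q) x * moI a u (β q) x + moI a u (α q) x * Dm (β q) x) with hΦ'
  have hΦd : ∀ x, HasDerivAt Φ (Φ' x) x := by
    intro x
    refine HasDerivAt.const_mul κ ?_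
    refine HasDerivAt.fun_sum fun q _ => ?_
    exact ((h.mo_deriv x (α q)).mul (h.mo_deriv x (β q))).const_mul (w q)
  have hDmc : ∀ k, Continuous (Dm k) := fun k =>
    (continuous_const.mul (h.mu_cont k)).add
      (continuous_finset_sum _ fun l _ => (h.mo_cont l).mul (h.mo_cont _))
  have hΦ'c : Continuous Φ' := by
    refine continuous_const.mul (continuous_finset_sum _ fun q _ => continuous_const.mul ?_)
    exact ((hDmc _).mul (h.mo_cont _)).add ((h.mo_cont _).mul (hDmc _))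
  have hint : ∫ x in a..b, Φ' x = Φ b - Φ a :=
    intervalIntegral.integral_eq_sub_of_hasDerivAt (fun x _ => hΦd x)
      (hΦ'c.intervalIntegrable _ _)
  have hρc : Continuous fun x => c0 * (‖u x‖ ^ 2) ^ 3 :=
    continuous_const.mul ((h.uc.norm.pow 2).pow 3)
  -- pointwise inequality
  have hpt : ∀ x ∈ Icc a b, Φ' x + c0 * (‖u x‖ ^ 2) ^ 3 ≤ ‖u' x‖ ^ 2 := by
    intro x hx
    obtain ⟨n, e, c, d, he, hmo, hmu, hd, hc⟩ := h.coords hx
    have := pointwise S w α β κ c0 e c d hsym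
      (fun i k j => hK (e i) (he i) (e k) (he k) (e j) (he j))
    rw [← hd, ← hc]
    simp only [hΦ', hDm, hmo, hmu]
    exact this
  have hmono : ∫ x in a..b, (Φ' x + c0 * (‖u x‖ ^ 2) ^ 3) ≤ ∫ x in a..b, ‖u' x‖ ^ 2 :=
    intervalIntegral.integral_mono_on h.hab ((hΦ'c.add hρc).intervalIntegrable _ _)
      ((h.hu'c.norm.pow 2).intervalIntegrable _ _) hpt
  rw [intervalIntegral.integral_add (hΦ'c.intervalIntegrable _ _) (hρc.intervalIntegrable _ _),
    hint, intervalIntegral.integral_const_mul] at hmono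
  change c0 * (∫ x in a..b, (‖u x‖ ^ 2) ^ 3) + (Φ b - Φ a) ≤ _
  linarith

/-- The sharp inequality on an interval with boundary terms. -/
theorem sharpI {θ ω : ℝ} (hθ0 : 0 < θ) (hω1 : -(π / 2) < ω - θ / 2)
    (hω2 : ω + θ / 2 < π / 2) :
    θ ^ 2 / 4 * (∫ x in a..b, (‖u x‖ ^ 2) ^ 3) ≤ (∫ x in a..b, ‖u' x‖ ^ 2) +
      (θ / 4 * tan (θ / 2 - ω) * (‖u a‖ ^ 2) ^ 2 +
        θ / 4 * tan (θ / 2 + ω) * (‖u b‖ ^ 2) ^ 2) := by
  have hlo : ω - θ / 2 ∈ Ioo (-(π / 2)) (π / 2) := by constructor <;> linarith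
  have hhi : ω + θ / 2 ∈ Ioo (-(π / 2)) (π / 2) := by constructor <;> linarith
  set I3 := ∫ x in a..b, (‖u x‖ ^ 2) ^ 3 with hI3
  set M : ℝ := I3 + θ / 4 * (‖u a‖ ^ 2) ^ 2 + θ / 4 * (‖u b‖ ^ 2) ^ 2 with hM
  have hI0 : 0 ≤ I3 := intervalIntegral.integral_nonneg h.hab fun x _ => by positivity
  have hM0 : 0 ≤ M := by positivity
  have hb : b ∈ Icc a b := ⟨h.hab, le_rfl⟩
  have hhalf : (-(1 / 2) : ℝ) ∈ Icc (-(1 / 2) : ℝ) (1 / 2) := by constructor <;> norm_num
  have key : ∀ δ : ℝ, 0 < δ → θ ^ 2 / 4 * I3 ≤ ((∫ x in a..b, ‖u' x‖ ^ 2) +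
      (θ / 4 * tan (θ / 2 - ω) * (‖u a‖ ^ 2) ^ 2 +
        θ / 4 * tan (θ / 2 + ω) * (‖u b‖ ^ 2) ^ 2)) + δ * M := by
    intro δ hδ
    obtain ⟨K, p, hsym, hcl, hK⟩ := exists_kernel_shift hθ0 hω1 hω2 hδ
    have h1 := h.calibrated (S1 K) (w1 p) (fun q => q.2.1) (fun q => q.2.2) (θ / 4) _ hsym hK
    have hPa : ∑ q ∈ S1 K, w1 p q * (moI a u q.2.1 a * moI a u q.2.2 a) =
        P1 K p (-(1 / 2)) (-(1 / 2)) * (‖u a‖ ^ 2) ^ 2 := by
      unfold P1 P
      rw [Finset.sum_mul]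
      refine Finset.sum_congr rfl fun q _ => ?_
      rw [h.mo_left, h.mo_left]
      ring
    have hca := (abs_le.1 (hcl _ hhalf _ hhalf)).2
    have ea : θ / 2 * (-(1 / 2) + -(1 / 2)) + ω = -(θ / 2 - ω) := by ring
    rw [ea, tan_neg, neg_neg] at hca
    have hPb : ∑ q ∈ S1 K, w1 p q * (moI a u q.2.1 b * moI a u q.2.2 b) ≥
        (-tan (θ / 2 + ω) - δ) * (‖u b‖ ^ 2) ^ 2 := by
      obtain ⟨n, e, c, d, he, hmo, -, -, hc⟩ := h.coords hb
      have e1 : ∑ q ∈ S1 K, w1 p q * (moI a u q.2.1 b * moI a u q.2.2 b) =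
          ∑ i, ∑ j, P1 K p (e i) (e j) * (c i ^ 2 * c j ^ 2) := by
        have e0 : ∀ q : Idx, moI a u q.2.1 b * moI a u q.2.2 b =
            ∑ i, ∑ j, (e i ^ q.2.1 * c i ^ 2) * (e j ^ q.2.2 * c j ^ 2) := fun q => by
          rw [hmo, hmo, Finset.sum_mul_sum]
        simp_rw [e0]
        rw [swap2]
        refine Finset.sum_congr rfl fun i _ => ?_
        refine Finset.sum_congr rfl fun j _ => ?_
        rw [P1, P, Finset.sum_mul]
        refine Finset.sum_congr rfl fun q _ => ?_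
        ring
      rw [e1, ← hc, pow_two (∑ i, c i ^ 2), Finset.sum_mul_sum, Finset.mul_sum]
      refine Finset.sum_le_sum fun i _ => ?_
      rw [Finset.mul_sum]
      refine Finset.sum_le_sum fun j _ => ?_
      refine mul_le_mul_of_nonneg_right ?_ (by positivity)
      have hx := (abs_le.1 (hcl _ (he i) _ (he j))).1
      have hmem : θ / 2 * (e i + e j) + ω ∈ Ioo (-(π / 2)) (π / 2) := by
        have := (he i).1
        have := (he i).2
        have := (he j).1
        have := (he j).2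
        constructor <;> nlinarith
      have hmono : tan (θ / 2 * (e i + e j) + ω) ≤ tan (ω + θ / 2) := by
        refine strictMonoOn_tan.monotoneOn hmem hhi ?_
        have := (he i).2
        have := (he j).2
        nlinarith
      rw [add_comm ω] at hmono
      linarith
    have hua : 0 ≤ (‖u a‖ ^ 2) ^ 2 := by positivity
    have hub : 0 ≤ (‖u b‖ ^ 2) ^ 2 := by positivity
    rw [hPa] at h1
    have hca' : P1 K p (-(1 / 2)) (-(1 / 2)) * (‖u a‖ ^ 2) ^ 2 ≤
        (tan (θ / 2 - ω) + δ) * (‖u a‖ ^ 2) ^ 2 :=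
      mul_le_mul_of_nonneg_right (by linarith) hua
    have hθ4 : 0 < θ / 4 := by positivity
    have j1 := mul_le_mul_of_nonneg_left hca' hθ4.le
    have j2 := mul_le_mul_of_nonneg_left hPb.le hθ4.le
    rw [hM]
    nlinarith
  refine le_of_forall_pos_le_add fun ε hε => ?_
  have h1 := key (ε / (M + 1)) (by positivity)
  have h2 : ε / (M + 1) * M ≤ ε := by
    rw [div_mul_eq_mul_div, div_le_iff₀ (by positivity)]
    nlinarith
  linarith

end SysI

end Pool.Agent.TH662.LT
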